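import Pool.Agent.Helper38.TH.Goals4
import Pool.Agent.Helper33.M3.QC

/-!
# Project TH, packet G4_C (`D₁z` small, `D₂z` large: bilinear sum in the pivot and `D₂z`, with a weight)
-/

set_option autoImplicit false
set_option linter.unusedSectionVars false

namespace Pool.Agent.Helper88.TH.C4

open Finset
open Pool.Agent.Helper11.M3
open Pool.Agent.Helper17.PP Pool.Agent.Helper17.PP0 Pool.Agent.Helper17.PP2
open Pool.Agent.Helper30.PP2 (c0 ph_insert ph_congr ph_norm)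
open Pool.Agent.Helper17.PP0.LRG (mem_blk mem_mods nm_insert nm_union one_le_nm rsj exp_eq)
open Pool.Agent.Helper32.TH (ps ps_apply Wz cV AA BB Wz_insert norm_AA norm_BB p_le_card)
open Pool.Agent.Helper38.TH (HypG4 Da D₁z D₂z HL HC)
open Pool.Agent.Helper33.M3 (yh ch cutd_ne cute_ne cutd_piv cute_piv ch_ne mem_sp upto_sum
  pow_bound)

section Basic

variable {p : ℕ} [Fact p.Prime] {B B₀ k U Λ C : Type} [Field k] [Fintype k] [Algebra (ZMod p) k]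
    [AddCommGroup U] [Module k U] [Fintype U]
    [AddCommGroup Λ] [Module k Λ] [Fintype Λ] [AddCommGroup C] (S : Sys p B B₀ k U Λ C)

/-- the shifted label function -/
noncomputable def cz (V : B → Prop) (u₀ : k) (z : B → ZMod p) (j : ℕ) (c y : B → k) : B → k :=
  cV V u₀ z y (c0 S j c)

lemma cV_congr (V : B → Prop) (u₀ : k) (z : B → ZMod p) (y c c' : B → k) (q' : B)
    (h : c q' = c' q') : cV V u₀ z y c q' = cV V u₀ z y c' q' := by
  classical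
  unfold cV
  rw [h]

lemma cz_eq (V : B → Prop) (u₀ : k) (z : B → ZMod p) (q P₁ q' : B) (t : k) (c y : B → k)
    (h : q' ≠ P₁) (h2 : q' ≠ q) :
    cV V u₀ z y (cutd S (S.bl q) q P₁ t c) q' = cz S V u₀ z (S.bl q) c y q' := by
  unfold cz
  refine cV_congr V u₀ z y _ _ q' ?_
  rw [cutd_ne S _ _ _ _ _ _ h, ch_ne S _ _ _ _ _ h2]

open Classical in
lemma mem_D₂ (V : B → Prop) (u₀ : k) (z : B → ZMod p) (e : B → k) {s : Finset B} {q P₁ q' : B}
    (t : k) (c y : B → k) (hP : P₁ ∉ s) :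
    q' ∈ D₂z S V u₀ z e (insert P₁ s) q P₁ t c y ↔
      q' ∈ s ∧ q' ≠ q ∧ S.spl q' ∧ y q' ≠ 0 ∧ cz S V u₀ z (S.bl q) c y q' * e q = t * e q' := by
  unfold D₂z
  rw [mem_filter, mem_sp S hP]
  constructor
  · rintro ⟨⟨h1, h2, h3⟩, h4, h5⟩
    have h6 : q' ≠ P₁ := fun h ↦ hP (h ▸ h1)
    rw [cz_eq S V u₀ z _ _ _ _ _ _ h6 h2] at h5
    exact ⟨h1, h2, h3, h4, h5⟩
  · rintro ⟨h1, h2, h3, h4, h5⟩
    have h6 : q' ≠ P₁ := fun h ↦ hP (h ▸ h1)
    refine ⟨⟨h1, h2, h3⟩, h4, ?_⟩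
    rw [cz_eq S V u₀ z _ _ _ _ _ _ h6 h2]
    exact h5

open Classical in
lemma mem_D₁ (V : B → Prop) (u₀ : k) (z : B → ZMod p) (e : B → k) {s : Finset B} {q P₁ q' : B}
    (t : k) (c y : B → k) (hP : P₁ ∉ s) :
    q' ∈ D₁z S V u₀ z e (insert P₁ s) q P₁ t c y ↔
      q' ∈ s ∧ q' ≠ q ∧ S.spl q' ∧ y q' ≠ 0 ∧ cz S V u₀ z (S.bl q) c y q' * e q ≠ t * e q' := by
  unfold D₁z
  rw [mem_filter, mem_sp S hP]
  constructor
  · rintro ⟨⟨h1, h2, h3⟩, h4, h5⟩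
    have h6 : q' ≠ P₁ := fun h ↦ hP (h ▸ h1)
    rw [cz_eq S V u₀ z _ _ _ _ _ _ h6 h2] at h5
    exact ⟨h1, h2, h3, h4, h5⟩
  · rintro ⟨h1, h2, h3, h4, h5⟩
    have h6 : q' ≠ P₁ := fun h ↦ hP (h ▸ h1)
    refine ⟨⟨h1, h2, h3⟩, h4, ?_⟩
    rw [cz_eq S V u₀ z _ _ _ _ _ _ h6 h2]
    exact h5

open Classical in
lemma mem_Da {s : Finset B} {q P₁ q' : B} (y : B → k) (hP : P₁ ∉ s) :
    q' ∈ Da S (insert P₁ s) q P₁ y ↔ q' ∈ s ∧ q' ≠ q ∧ S.spl q' ∧ y q' ≠ 0 := by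
  unfold Da
  rw [mem_filter, mem_sp S hP]
  tauto

open Classical in
/-- The primes of `r` with a nonzero character. -/
noncomputable def Fr (y : B → k) (r : Finset B) (q : B) : Finset B :=
  r.filter fun q' ↦ q' ≠ q ∧ S.spl q' ∧ y q' ≠ 0

open Classical in
/-- The conditions on `r` and `q`. -/
structure Rc (V I₀ : B → Prop) (u₀ : k) (z : B → ZMod p) (e : B → k) (N : B → Prop)
    (I i' m : ℕ) (t : k) (c y : B → k) (r : Finset B) (q : B) : Prop where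
  wv : Wv S r q
  le : m ≤ S.bl q
  inI : I₀ q
  top : ∀ q' ∈ r, N q' → S.bl q' < i'
  zer : ∀ q' ∈ r, q' ≠ q → S.spl q' → y q' ≠ 0 →
    cz S V u₀ z (S.bl q) c y q' * e q ≠ t * e q'
  log : Nat.log 2 (S.nm (Fr S y r q)) < I

open Classical in
/-- The conditions on `D`, for fixed `r` and `q`. -/
structure Dc (V : B → Prop) (u₀ : k) (z : B → ZMod p) (e : B → k) (I i : ℕ) (t : k)
    (c y : B → k) (P r : Finset B) (q : B) (D : Finset B) : Prop where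
  sub : D ⊆ P
  dis : Disjoint D r
  all : ∀ q' ∈ D, S.spl q' ∧ y q' ≠ 0 ∧ cz S V u₀ z (S.bl q) c y q' * e q = t * e q' ∧
    S.bl q' ≠ S.bl q
  log : Nat.log 2 (S.nm D) = i
  inj : Set.InjOn S.bs ((D ∪ r : Finset B) : Set B)
  big : 2 * I ≤ Nat.log 2 (S.nm (D ∪ Fr S y r q))

/-- The conditions on the pivot, for fixed `r`. -/
structure Pc (N : B → Prop) (i' : ℕ) (r : Finset B) (P₁ : B) : Prop where
  isN : N P₁
  bl : S.bl P₁ = i'
  bs : ∀ q' ∈ r, S.bs q' ≠ S.bs P₁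

lemma ne_zero {e : B → k} (he : ∀ q, e q ≠ 0) {t : k} (ht : t ≠ 0) {a : k} {q q' : B}
    (h : a * e q = t * e q') : a ≠ 0 := by
  intro h2
  rw [h2, zero_mul] at h
  exact mul_ne_zero ht (he q') h.symm

open Classical in
theorem cond_iff {e : B → k} {N : B → Prop} (hN : ∀ q, N q → ¬ S.spl q)
    (V I₀ : B → Prop) (u₀ : k) (z : B → ZMod p) {I i i' m : ℕ} {t : k}
    (χ : AddChar Λ ℂ) (c y : B → k) {P r D : Finset B} {q P₁ : B} (hD : D ⊆ P)
    (hr : Disjoint D r) (hq : q ∈ r) (hP : P₁ ∉ D ∪ r) :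
    ((S.Fam (insert P₁ (D ∪ r)) ∧ (Wv S (insert P₁ (D ∪ r)) q ∧ m ≤ S.bl q ∧ I₀ q) ∧
      (Piv S N (insert P₁ (D ∪ r)) P₁ ∧ P₁ ≠ q ∧ S.bl P₁ = i') ∧
      HC S V u₀ z e I i (insert P₁ (D ∪ r)) q P₁ t χ c y) ∧
      D = D₂z S V u₀ z e (insert P₁ (D ∪ r)) q P₁ t c y) ↔
    Rc S V I₀ u₀ z e N I i' m t c y r q ∧ Dc S V u₀ z e I i t c y P r q D ∧ Pc S N i' r P₁ ∧
      S.cls P₁ + ∑ q' ∈ D ∪ r, S.cls q' = S.cl₀ := by
  have hPD : P₁ ∉ D := fun h ↦ hP (mem_union_left _ h)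
  have hPr : P₁ ∉ r := fun h ↦ hP (mem_union_right _ h)
  have hqD : q ∉ D := fun h ↦ disjoint_left.1 hr h hq
  have hPq : P₁ ≠ q := fun h ↦ hPr (h ▸ hq)
  have hrD : ∀ q' ∈ r, q' ∉ D := fun q' h h' ↦ disjoint_left.1 hr h' h
  have mD : ∀ q' ∈ D, q' ∈ D ∪ r := fun q' h ↦ mem_union_left _ h
  have mr : ∀ q' ∈ r, q' ∈ D ∪ r := fun q' h ↦ mem_union_right _ h
  -- the set `D₁z`
  have hD₁ : (∀ q' ∈ D, cz S V u₀ z (S.bl q) c y q' * e q = t * e q') →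
      (∀ q' ∈ r, q' ≠ q → S.spl q' → y q' ≠ 0 →
        cz S V u₀ z (S.bl q) c y q' * e q ≠ t * e q') →
      D₁z S V u₀ z e (insert P₁ (D ∪ r)) q P₁ t c y = Fr S y r q := by
    intro h1 h2
    ext q'
    unfold Fr
    rw [mem_D₁ S V u₀ z e t c y hP, mem_filter]
    constructor
    · rintro ⟨h3, h4, h5, h6, h7⟩
      rcases mem_union.1 h3 with h8 | h8
      · exact absurd (h1 q' h8) h7
      · exact ⟨h8, h4, h5, h6⟩
    · rintro ⟨h3, h4, h5, h6⟩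
      exact ⟨mr q' h3, h4, h5, h6, h2 q' h3 h4 h5 h6⟩
  -- the set `Da`
  have hDa : (∀ q' ∈ D, S.spl q' ∧ y q' ≠ 0) →
      Da S (insert P₁ (D ∪ r)) q P₁ y = D ∪ Fr S y r q := by
    intro h1
    ext q'
    unfold Fr
    rw [mem_Da S y hP, mem_union, mem_union, mem_filter]
    constructor
    · rintro ⟨h3 | h3, h4, h5, h6⟩
      · exact Or.inl h3
      · exact Or.inr ⟨h3, h4, h5, h6⟩
    · rintro (h3 | ⟨h3, h4, h5, h6⟩)
      · exact ⟨Or.inl h3, fun h ↦ hqD (h ▸ h3), h1 q' h3⟩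
      · exact ⟨Or.inr h3, h4, h5, h6⟩
  constructor
  · rintro ⟨⟨⟨f1, f2⟩, ⟨w, hm, hI⟩, ⟨pv, -, hi⟩, ⟨l0, l1, l2⟩⟩, hDD⟩
    have hDall : ∀ q' ∈ D, S.spl q' ∧ y q' ≠ 0 ∧
        cz S V u₀ z (S.bl q) c y q' * e q = t * e q' := by
      intro q' hq'
      rw [hDD, mem_D₂ S V u₀ z e t c y hP] at hq'
      exact hq'.2.2
    have hzer : ∀ q' ∈ r, q' ≠ q → S.spl q' → y q' ≠ 0 →
        cz S V u₀ z (S.bl q) c y q' * e q ≠ t * e q' := by
      intro q' h1 h2 h3 h4 h5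
      refine hrD q' h1 ?_
      rw [hDD, mem_D₂ S V u₀ z e t c y hP]
      exact ⟨mr q' h1, h2, h3, h4, h5⟩
    rw [coe_insert, Set.injOn_insert (by exact_mod_cast hP)] at f1
    rw [sum_insert hP] at f2
    rw [hD₁ (fun q' h ↦ (hDall q' h).2.2) hzer] at l1
    unfold HL at l0
    rw [hDa (fun q' h ↦ ⟨(hDall q' h).1, (hDall q' h).2.1⟩)] at l0
    refine ⟨⟨⟨hq, w.spl, ?_⟩, hm, hI, ?_, hzer, l1⟩, ⟨hD, hr, ?_, ?_, f1.1, l0⟩,
      ⟨pv.isN, hi, ?_⟩, f2⟩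
    · intro q' h1 h2 h3
      exact w.uniq q' (mem_insert_of_mem (mr q' h1)) h2 h3
    · intro q' h1 h2
      rw [← hi]
      exact pv.top q' (mem_insert_of_mem (mr q' h1)) h2 (fun h ↦ hPr (h ▸ h1))
    · intro q' h1
      have h2 := hDall q' h1
      exact ⟨h2.1, h2.2.1, h2.2.2, w.uniq q' (mem_insert_of_mem (mD q' h1))
        (fun h ↦ hqD (h ▸ h1)) h2.1⟩
    · rw [← hDD] at l2
      exact l2
    · intro q' h1 h2
      exact f1.2 ⟨q', by exact_mod_cast mr q' h1, h2⟩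
  · rintro ⟨hR, hDc, hPc, hcl⟩
    have hDall := hDc.all
    have hDD : D = D₂z S V u₀ z e (insert P₁ (D ∪ r)) q P₁ t c y := by
      ext q'
      rw [mem_D₂ S V u₀ z e t c y hP]
      constructor
      · intro h
        exact ⟨mD q' h, fun h' ↦ hqD (h' ▸ h), (hDall q' h).1, (hDall q' h).2.1,
          (hDall q' h).2.2.1⟩
      · rintro ⟨h1, h2, h3, h4, h5⟩
        rcases mem_union.1 h1 with h6 | h6
        · exact h6
        · exact absurd h5 (hR.zer q' h6 h2 h3 h4)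
    have hbD : ∀ q' ∈ D, S.bs q' ≠ S.bs P₁ := by
      intro q' h1 h2
      exact hN P₁ hPc.isN ((S.bsS q' P₁ h2).1 (hDall q' h1).1)
    refine ⟨⟨⟨?_, ?_⟩, ⟨⟨mem_insert_of_mem (mr q hq), hR.wv.spl, ?_⟩, hR.le, hR.inI⟩,
      ⟨⟨mem_insert_self _ _, hPc.isN, ?_⟩, hPq, hPc.bl⟩, ?_, ?_, ?_⟩, hDD⟩
    · rw [coe_insert, Set.injOn_insert (by exact_mod_cast hP)]
      refine ⟨hDc.inj, ?_⟩
      rintro ⟨q', h1, h2⟩
      rcases mem_union.1 (by exact_mod_cast h1 : q' ∈ D ∪ r) with h3 | h3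
      · exact hbD q' h3 h2
      · exact hPc.bs q' h3 h2
    · rw [sum_insert hP]
      exact hcl
    · intro q' h1 h2 h3
      rcases mem_insert.1 h1 with h4 | h4
      · rw [h4] at h3
        exact absurd h3 (hN P₁ hPc.isN)
      · rcases mem_union.1 h4 with h5 | h5
        · exact (hDall q' h5).2.2.2
        · exact hR.wv.uniq q' h5 h2 h3
    · intro q' h1 h2 h3
      rw [hPc.bl]
      rcases mem_insert.1 h1 with h4 | h4
      · exact absurd h4 h3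
      · rcases mem_union.1 h4 with h5 | h5
        · exact absurd (hDall q' h5).1 (hN q' h2)
        · exact hR.top q' h5 h2
    · unfold HL
      rw [hDa (fun q' h ↦ ⟨(hDall q' h).1, (hDall q' h).2.1⟩)]
      exact hDc.big
    · rw [hD₁ (fun q' h ↦ (hDall q' h).2.2.1) hR.zer]
      exact hR.log
    · rw [← hDD]
      exact hDc.log

open Classical in
lemma rs₄_card {V : B → Prop} {u₀ : k} {z : B → ZMod p} {e : B → k} {I i : ℕ} {t : k}
    {c y : B → k} {P r D : Finset B} {q P₁ : B} (hP : P₁ ∉ D ∪ r)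
    (h : Dc S V u₀ z e I i t c y P r q D) :
    (rs₄ S (insert P₁ (D ∪ r)) q P₁).card =
      (rsj S (S.bl q) D).card + (rsj S (S.bl q) r).card := by
  have h1 : rs₄ S (insert P₁ (D ∪ r)) q P₁ = rsj S (S.bl q) D ∪ rsj S (S.bl q) r := by
    ext q'
    unfold rs₄ rsj
    simp only [mem_filter, mem_erase, mem_insert, mem_union]
    constructor
    · rintro ⟨⟨h1, h2, h3⟩, h4, h5⟩
      rcases h3 with h3 | h3 | h3
      · exact absurd h3 h1
      · exact Or.inl ⟨h3, h4, h5⟩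
      · exact Or.inr ⟨h3, h4, h5⟩
    · rintro (⟨h1, h2, h3⟩ | ⟨h1, h2, h3⟩)
      · exact ⟨⟨fun h' ↦ hP (h' ▸ mem_union_left _ h1), fun h' ↦ by rw [h'] at h3; omega,
          Or.inr (Or.inl h1)⟩, h2, h3⟩
      · exact ⟨⟨fun h' ↦ hP (h' ▸ mem_union_right _ h1), fun h' ↦ by rw [h'] at h3; omega,
          Or.inr (Or.inr h1)⟩, h2, h3⟩
  rw [h1, card_union_of_disjoint]
  exact disjoint_of_subset_right (filter_subset _ _)
    (disjoint_of_subset_left (filter_subset _ _) h.dis)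

open Classical in
theorem phase (ψ : AddChar k ℂ) (χ : AddChar Λ ℂ) {V : B → Prop} {u₀ : k} {z : B → ZMod p}
    {e : B → k} {I i : ℕ} {t : k} {c y : B → k}
    {P r D : Finset B} {q P₁ : B} (hq : q ∈ r) (hP : P₁ ∉ D ∪ r)
    (h : Dc S V u₀ z e I i t c y P r q D) (x : U) :
    ph S ψ χ (insert P₁ (D ∪ r)) x (cutd S (S.bl q) q P₁ t c) (cute S (S.bl q) q P₁ 0 0 y) =
      ph S ψ χ (D ∪ r) x (ch S (S.bl q) q t c) (yh S (S.bl q) q y) *
      (∏ q' ∈ r, ψ (yh S (S.bl q) q y q' *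
        (ch S (S.bl q) q t c q' * algebraMap (ZMod p) k (S.kap q' P₁)))) *
      ∏ q' ∈ D, ψ (y q' * (c0 S (S.bl q) c q' * algebraMap (ZMod p) k (S.kap q' P₁))) := by
  have hPq : P₁ ≠ q := fun h' ↦ hP (h' ▸ mem_union_right _ hq)
  have hne : ∀ q' ∈ D ∪ r, q' ≠ P₁ := fun q' h1 h2 ↦ hP (h2 ▸ h1)
  rw [ph_insert S ψ χ (D ∪ r) x _ _ P₁ hP, cutd_piv S _ _ _ _ _ hPq, cute_piv,
    ph_congr S ψ χ (D ∪ r) x _ _ _ _ (fun q' h1 ↦ cutd_ne S _ _ _ _ _ _ (hne q' h1))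
      (fun q' h1 ↦ cute_ne S _ _ _ _ _ (hne q' h1)), prod_union h.dis]
  have e1 : ∏ q' ∈ D, ψ (cute S (S.bl q) q P₁ 0 0 y q' *
      (0 * S.a q' P₁ + cutd S (S.bl q) q P₁ t c q' * algebraMap (ZMod p) k (S.kap q' P₁))) =
      ∏ q' ∈ D, ψ (y q' * (c0 S (S.bl q) c q' * algebraMap (ZMod p) k (S.kap q' P₁))) := by
    refine prod_congr rfl fun q' h1 ↦ ?_
    have h2 := h.all q' h1
    have h4 : q' ≠ q := fun h' ↦ h2.2.2.2 (by rw [h'])
    have h5 := hne q' (mem_union_left _ h1)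
    rw [cutd_ne S _ _ _ _ _ _ h5, cute_ne S _ _ _ _ _ h5, ch_ne S _ _ _ _ _ h4]
    unfold yh
    rw [if_neg h4, if_pos ⟨h2.1, h2.2.2.2⟩, zero_mul, zero_add]
  have e2 : ∏ q' ∈ r, ψ (cute S (S.bl q) q P₁ 0 0 y q' *
      (0 * S.a q' P₁ + cutd S (S.bl q) q P₁ t c q' * algebraMap (ZMod p) k (S.kap q' P₁))) =
      ∏ q' ∈ r, ψ (yh S (S.bl q) q y q' *
        (ch S (S.bl q) q t c q' * algebraMap (ZMod p) k (S.kap q' P₁))) := by
    refine prod_congr rfl fun q' h1 ↦ ?_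
    have h5 := hne q' (mem_union_right _ h1)
    rw [cutd_ne S _ _ _ _ _ _ h5, cute_ne S _ _ _ _ _ h5, zero_mul, zero_add]
  rw [e1, e2, map_zero, AddChar.map_zero_eq_one, zero_mul, AddChar.map_zero_eq_one]
  ring

open Classical in
/-- the product of the phases at `D` -/
theorem prod_mul (ψ : AddChar k ℂ) (u₀ : k) (V : B → Prop) (z : B → ZMod p) (D : Finset B)
    (j : ℕ) (c y : B → k) (P₁ : B) (hy : ∀ q' ∈ D, y q' ≠ 0) :
    AA S (ps ψ u₀) V z D P₁ *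
      (∏ q' ∈ D, ψ (y q' * (c0 S j c q' * algebraMap (ZMod p) k (S.kap q' P₁)))) =
    ∏ q' ∈ D, ψ (y q' * (cz S V u₀ z j c y q' * algebraMap (ZMod p) k (S.kap q' P₁))) := by
  unfold AA
  rw [prod_filter, ← prod_mul_distrib]
  refine prod_congr rfl fun q' hq' ↦ ?_
  unfold cz cV
  by_cases hV : V q'
  · rw [if_pos hV, if_pos hV, ps_apply, ← AddChar.map_add_eq_mul]
    congr 1
    rw [map_mul]
    have := hy q' hq'
    field_simp
    ring
  · rw [if_neg hV, if_neg hV, one_mul, add_zero]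

end Basic

section Main

variable {p : ℕ} [Fact p.Prime] {B B₀ k U Λ C : Type} [Field k] [Fintype k]
    [Algebra (ZMod p) k] [AddCommGroup U] [Module k U] [Fintype U]
    [AddCommGroup Λ] [Module k Λ] [Fintype Λ] [AddCommGroup C] (S : Sys p B B₀ k U Λ C)

open Classical in
/-- The coefficient of the pivot. -/
noncomputable def al (ψ : AddChar k ℂ) (V : B → Prop) (u₀ : k) (z : B → ZMod p) (t : k)
    (c y : B → k) (P r : Finset B) (q : B) (γ : C) (P₁ : B) : ℂ :=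
  if P₁ ∈ P \ r ∧ (∀ q' ∈ r, S.bs q' ≠ S.bs P₁) ∧ S.cls P₁ = γ then
    AA S (ps ψ u₀) V z r P₁ *
    ∏ q' ∈ r, ψ (yh S (S.bl q) q y q' *
        (ch S (S.bl q) q t c q' * algebraMap (ZMod p) k (S.kap q' P₁)))
  else 0

open Classical in
/-- The coefficient of `D`. -/
noncomputable def be (ψ : AddChar k ℂ) (V : B → Prop) (u₀ : k)
    (h : Finset B → (B → ZMod p) → ℂ) (z : B → ZMod p) (e : B → k) (I i : ℕ) (t : k) (x : U)
    (χ : AddChar Λ ℂ) (c y : B → k) (P r : Finset B) (q : B) (γ : C) (D : Finset B) : ℂ :=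
  if Dc S V u₀ z e I i t c y P r q D ∧ γ + ∑ q' ∈ D ∪ r, S.cls q' = S.cl₀ then
    (Fintype.card k : ℂ) ^ (rsj S (S.bl q) D).card *
      ph S ψ χ (D ∪ r) x (ch S (S.bl q) q t c) (yh S (S.bl q) q y) *
      BB S (ps ψ u₀) V h z D r
  else 0

open Classical in
/-- The summand for fixed `x, χ, c, y`. -/
noncomputable def gg (ψ : AddChar k ℂ) (V I₀ : B → Prop) (u₀ : k)
    (h : Finset B → (B → ZMod p) → ℂ) (z : B → ZMod p) (e : B → k) (N : B → Prop)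
    (I i i' m : ℕ) (t : k) (X : ℝ)
    (x : U) (χ : AddChar Λ ℂ) (c y : B → k) (b : Finset B) (q P₁ : B) : ℂ :=
  if S.Fam b ∧ (Wv S b q ∧ m ≤ S.bl q ∧ I₀ q) ∧ (Piv S N b P₁ ∧ P₁ ≠ q ∧ S.bl P₁ = i') ∧
      HC S V u₀ z e I i b q P₁ t χ c y then
    (Fintype.card k : ℂ) ^ (rs₄ S b q P₁).card *
      ph S ψ χ b x (cutd S (S.bl q) q P₁ t c) (cute S (S.bl q) q P₁ 0 0 y) *
      (Wz S (ps ψ u₀) V h z b * (Real.exp (-(S.nm b / X)) : ℂ))
  else 0

open Classical in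
/-- The term of the bilinear form. -/
noncomputable def tm (ψ : AddChar k ℂ) (V : B → Prop) (u₀ : k)
    (h : Finset B → (B → ZMod p) → ℂ) (z : B → ZMod p) (e : B → k) (I i : ℕ) (t : k) (X : ℝ)
    (x : U) (χ : AddChar Λ ℂ) (c y : B → k) (P r : Finset B) (q : B) (γ : C) (P₁ : B)
    (D : Finset B) : ℂ :=
  al S ψ V u₀ z t c y P r q γ P₁ * be S ψ V u₀ h z e I i t x χ c y P r q γ D *
    (∏ q' ∈ D, ψ (y q' * (cz S V u₀ z (S.bl q) c y q' *
      algebraMap (ZMod p) k (S.kap q' P₁)))) *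
    (Real.exp (-(S.N P₁ * S.nm D / (X / S.nm r))) : ℂ)

open Classical in
lemma inner_eq [Fintype C] (ψ : AddChar k ℂ) {e : B → k} {N : B → Prop}
    (hN : ∀ q, N q → ¬ S.spl q) (V I₀ : B → Prop) (hNV : ∀ q, N q → ¬ V q) (u₀ : k)
    (h : Finset B → (B → ZMod p) → ℂ) (z : B → ZMod p) (I i i' m : ℕ) {t : k}
    (X : ℝ) (x : U) (χ : AddChar Λ ℂ) (c y : B → k) (P r : Finset B)
    {q : B} (hq : q ∈ r) (hR : Rc S V I₀ u₀ z e N I i' m t c y r q) :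
    ∑ D ∈ (P \ r).powerset, ∑ P₁ ∈ P \ (D ∪ r),
      (if D = D₂z S V u₀ z e (insert P₁ (D ∪ r)) q P₁ t c y then
        gg S ψ V I₀ u₀ h z e N I i i' m t X x χ c y (insert P₁ (D ∪ r)) q P₁ else 0) =
    ∑ γ : C, ((p : ℂ) ^ (r.filter V).card * (Fintype.card k : ℂ) ^ (rsj S (S.bl q) r).card) *
      ∑ P₁ ∈ S.blk i' with N P₁, ∑ D ∈ S.mods i,
        tm S ψ V u₀ h z e I i t X x χ c y P r q γ P₁ D := by
  set w : ℂ := (p : ℂ) ^ (r.filter V).card *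
    (Fintype.card k : ℂ) ^ (rsj S (S.bl q) r).card with hw
  set H : Finset B → B → ℂ := fun D P₁ ↦ ∑ γ : C,
    w * tm S ψ V u₀ h z e I i t X x χ c y P r q γ P₁ D with hH
  have e1 : ∑ γ : C, w *
      ∑ P₁ ∈ S.blk i' with N P₁, ∑ D ∈ S.mods i,
        tm S ψ V u₀ h z e I i t X x χ c y P r q γ P₁ D =
      ∑ D ∈ S.mods i, ∑ P₁ ∈ S.blk i' with N P₁, H D P₁ := by
    rw [hH]
    simp only [mul_sum]
    calc _ = ∑ P₁ ∈ S.blk i' with N P₁, ∑ γ : C, ∑ D ∈ S.mods i,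
          w * tm S ψ V u₀ h z e I i t X x χ c y P r q γ P₁ D := sum_comm
      _ = ∑ P₁ ∈ S.blk i' with N P₁, ∑ D ∈ S.mods i, ∑ γ : C,
          w * tm S ψ V u₀ h z e I i t X x χ c y P r q γ P₁ D :=
          sum_congr rfl fun P₁ _ ↦ sum_comm
      _ = _ := sum_comm
  rw [e1]
  have hHe : ∀ D P₁, H D P₁ = if P₁ ∈ P \ r ∧ (∀ q' ∈ r, S.bs q' ≠ S.bs P₁) ∧
      Dc S V u₀ z e I i t c y P r q D ∧ S.cls P₁ + ∑ q' ∈ D ∪ r, S.cls q' = S.cl₀ then
        w *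
        ((AA S (ps ψ u₀) V z r P₁ * ∏ q' ∈ r, ψ (yh S (S.bl q) q y q' *
          (ch S (S.bl q) q t c q' * algebraMap (ZMod p) k (S.kap q' P₁)))) *
          ((Fintype.card k : ℂ) ^ (rsj S (S.bl q) D).card *
            ph S ψ χ (D ∪ r) x (ch S (S.bl q) q t c) (yh S (S.bl q) q y) *
            BB S (ps ψ u₀) V h z D r) *
        (∏ q' ∈ D, ψ (y q' * (cz S V u₀ z (S.bl q) c y q' *
          algebraMap (ZMod p) k (S.kap q' P₁)))) *
        (Real.exp (-(S.N P₁ * S.nm D / (X / S.nm r))) : ℂ)) else 0 := by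
    intro D P₁
    rw [hH]
    simp only
    rw [sum_eq_single (S.cls P₁)]
    · unfold tm al be
      by_cases h1 : P₁ ∈ P \ r ∧ (∀ q' ∈ r, S.bs q' ≠ S.bs P₁)
      · by_cases h2 : Dc S V u₀ z e I i t c y P r q D ∧
          S.cls P₁ + ∑ q' ∈ D ∪ r, S.cls q' = S.cl₀
        · rw [if_pos ⟨h1.1, h1.2, rfl⟩, if_pos h2, if_pos ⟨h1.1, h1.2, h2⟩]
        · have h3 : ¬ (P₁ ∈ P \ r ∧ (∀ q' ∈ r, S.bs q' ≠ S.bs P₁) ∧
              Dc S V u₀ z e I i t c y P r q D ∧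
              S.cls P₁ + ∑ q' ∈ D ∪ r, S.cls q' = S.cl₀) :=
            fun h ↦ h2 h.2.2
          rw [if_neg h2, if_neg h3]
          ring
      · have h3 : ¬ (P₁ ∈ P \ r ∧ (∀ q' ∈ r, S.bs q' ≠ S.bs P₁) ∧
            Dc S V u₀ z e I i t c y P r q D ∧
            S.cls P₁ + ∑ q' ∈ D ∪ r, S.cls q' = S.cl₀) :=
          fun h ↦ h1 ⟨h.1, h.2.1⟩
        rw [if_neg (fun h ↦ h1 ⟨h.1, h.2.1⟩), if_neg h3]
        ring
    · intro γ _ hγ
      unfold tm al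
      rw [if_neg (fun h ↦ hγ h.2.2.symm)]
      ring
    · intro h
      exact absurd (mem_univ _) h
  refine sum_congr_of_eq_on_inter ?_ ?_ ?_
  · intro D hD hDi
    refine sum_eq_zero fun P₁ hP₁ ↦ ?_
    rw [mem_powerset, subset_sdiff] at hD
    rw [mem_sdiff] at hP₁
    by_cases h1 : D = D₂z S V u₀ z e (insert P₁ (D ∪ r)) q P₁ t c y
    · rw [if_pos h1]
      unfold gg
      rw [if_neg]
      intro h2
      have h3 := (cond_iff S hN V I₀ u₀ z χ c y hD.1 hD.2 hq hP₁.2).1 ⟨h2, h1⟩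
      exact hDi ((mem_mods S).2 h3.2.1.log)
    · rw [if_neg h1]
  · intro D _ hD
    refine sum_eq_zero fun P₁ _ ↦ ?_
    rw [hHe, if_neg]
    rintro ⟨-, -, h, -⟩
    refine hD ?_
    rw [mem_powerset]
    exact subset_sdiff.2 ⟨h.sub, h.dis⟩
  · intro D hD _
    rw [mem_powerset, subset_sdiff] at hD
    refine sum_congr_of_eq_on_inter ?_ ?_ ?_
    · intro P₁ hP₁ hPn
      rw [mem_sdiff] at hP₁
      by_cases h1 : D = D₂z S V u₀ z e (insert P₁ (D ∪ r)) q P₁ t c y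
      · rw [if_pos h1]
        unfold gg
        rw [if_neg]
        intro h2
        have h3 := (cond_iff S hN V I₀ u₀ z χ c y hD.1 hD.2 hq hP₁.2).1 ⟨h2, h1⟩
        refine hPn ?_
        rw [mem_filter, mem_blk]
        exact ⟨h3.2.2.1.bl, h3.2.2.1.isN⟩
      · rw [if_neg h1]
    · intro P₁ hP₁ hPn
      rw [mem_filter, mem_blk] at hP₁
      rw [hHe, if_neg]
      rintro ⟨h1, h2, h3, -⟩
      rw [mem_sdiff] at h1
      refine hPn ?_
      rw [mem_sdiff, mem_union, not_or]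
      refine ⟨h1.1, ?_, h1.2⟩
      intro h4
      exact hN P₁ hP₁.2 (h3.all P₁ h4).1
    · intro P₁ hP₁ hPb
      rw [mem_sdiff] at hP₁
      rw [mem_filter, mem_blk] at hPb
      have hPr : P₁ ∈ P \ r := mem_sdiff.2 ⟨hP₁.1, fun h ↦ hP₁.2 (mem_union_right _ h)⟩
      have hc := cond_iff S (I := I) (i := i) (m := m) (i' := i') (t := t) (e := e) hN V I₀ u₀ z
        χ c y hD.1 hD.2 hq hP₁.2
      rw [hHe]
      by_cases h : (∀ q' ∈ r, S.bs q' ≠ S.bs P₁) ∧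
          Dc S V u₀ z e I i t c y P r q D ∧ S.cls P₁ + ∑ q' ∈ D ∪ r, S.cls q' = S.cl₀
      · have h1 := hc.2 ⟨hR, h.2.1, ⟨hPb.2, hPb.1, h.1⟩, h.2.2⟩
        rw [if_pos h1.2, if_pos ⟨hPr, h⟩]
        unfold gg
        rw [if_pos h1.1, rs₄_card S hP₁.2 h.2.1, phase S ψ χ hq hP₁.2 h.2.1 x,
          exp_eq S hD.2 hP₁.2 X, pow_add, Wz_insert S (ps ψ u₀) V _ z hD.2 hP₁.2 (hNV P₁ hPb.2),
          ← prod_mul S ψ u₀ V z D (S.bl q) c y P₁ (fun q' h' ↦ (h.2.1.all q' h').2.1), hw]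
        ring
      · have h4 : ¬ (P₁ ∈ P \ r ∧ (∀ q' ∈ r, S.bs q' ≠ S.bs P₁) ∧
            Dc S V u₀ z e I i t c y P r q D ∧
            S.cls P₁ + ∑ q' ∈ D ∪ r, S.cls q' = S.cl₀) :=
          fun h2 ↦ h h2.2
        rw [if_neg h4]
        by_cases h1 : D = D₂z S V u₀ z e (insert P₁ (D ∪ r)) q P₁ t c y
        · rw [if_pos h1]
          unfold gg
          rw [if_neg]
          intro h2
          have h3 := hc.1 ⟨h2, h1⟩
          exact h ⟨h3.2.2.1.bs, h3.2.1, h3.2.2.2⟩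
        · rw [if_neg h1]

lemma al_norm (ψ : AddChar k ℂ) (V : B → Prop) (u₀ : k) (z : B → ZMod p) (t : k)
    (c y : B → k) (P r : Finset B) (q : B) (γ : C)
    (P₁ : B) : ‖al S ψ V u₀ z t c y P r q γ P₁‖ ≤ 1 := by
  unfold al
  split_ifs
  · rw [norm_mul, norm_AA, norm_prod, prod_eq_one fun q' _ ↦ AddChar.norm_apply _ _, one_mul]
  · simp

open Classical in
lemma be_norm (ψ : AddChar k ℂ) (V : B → Prop) (u₀ : k)
    (h : Finset B → (B → ZMod p) → ℂ) (hh : ∀ D z, ‖h D z‖ ≤ 1) (z : B → ZMod p)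
    (e : B → k) (I i : ℕ) (t : k) (x : U)
    (χ : AddChar Λ ℂ) (c y : B → k) (P r : Finset B) (q : B) (γ : C) (D : Finset B) :
    ‖be S ψ V u₀ h z e I i t x χ c y P r q γ D‖ ≤ (Fintype.card k : ℝ) ^ (2 * D.card) := by
  have hk : (1 : ℝ) ≤ Fintype.card k := by exact_mod_cast Fintype.card_pos
  unfold be
  split_ifs
  · rw [norm_mul, norm_mul, ph_norm, mul_one, norm_pow, Complex.norm_natCast, two_mul, pow_add]
    refine mul_le_mul (pow_le_pow_right₀ hk ?_) (norm_BB S _ V h hh z D r) (norm_nonneg _)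
      (by positivity)
    unfold rsj
    exact card_filter_le _ _
  · rw [norm_zero]
    positivity

open Classical in
lemma inner_le [Fintype C] (ψ : AddChar k ℂ) {e : B → k} {N : B → Prop}
    {g : ℝ → ℝ} {K : ℕ} (hH : HypG4 S ψ e N g K) (V I₀ : B → Prop) (hNV : ∀ q, N q → ¬ V q)
    (u₀ : k) (h : Finset B → (B → ZMod p) → ℂ) (hh : ∀ D z, ‖h D z‖ ≤ 1) (z : B → ZMod p)
    (I i i' m : ℕ)
    (hi' : 1 ≤ i') {t : k} (ht : t ≠ 0) {X : ℝ} (hX : 0 < X) (x : U) (χ : AddChar Λ ℂ)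
    (c y : B → k) (P r : Finset B) {q : B} (hq : q ∈ r) :
    ‖∑ D ∈ (P \ r).powerset, ∑ P₁ ∈ P \ (D ∪ r),
      (if D = D₂z S V u₀ z e (insert P₁ (D ∪ r)) q P₁ t c y then
        gg S ψ V I₀ u₀ h z e N I i i' m t X x χ c y (insert P₁ (D ∪ r)) q P₁ else 0)‖ ≤
    Fintype.card C * (((Fintype.card k : ℝ) * p) ^ r.card *
      (K * 2 ^ (i + i') * (i + 1) ^ K * (2 : ℝ) ^ (-(min i i' : ℝ) / K) *
        Real.exp (-(S.nm r / (2 * X / 2 ^ (i + i')))))) := by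
  have he := hH.e_ne
  have hN := hH.nspl
  have hnm : (0 : ℝ) < S.nm r := by exact_mod_cast one_le_nm S r
  have hp : (1 : ℝ) ≤ p := by exact_mod_cast (Fact.out : p.Prime).one_lt.le
  by_cases hR : Rc S V I₀ u₀ z e N I i' m t c y r q
  · rw [inner_eq S ψ hN V I₀ hNV u₀ h z I i i' m X x χ c y P r hq hR]
    have hk : (1 : ℝ) ≤ Fintype.card k := by exact_mod_cast Fintype.card_pos
    refine (norm_sum_le _ _).trans ?_
    have h1 : ∀ γ ∈ (univ : Finset C), ‖((p : ℂ) ^ (r.filter V).card *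
        (Fintype.card k : ℂ) ^ (rsj S (S.bl q) r).card) *
      ∑ P₁ ∈ S.blk i' with N P₁, ∑ D ∈ S.mods i,
        tm S ψ V u₀ h z e I i t X x χ c y P r q γ P₁ D‖ ≤
        ((Fintype.card k : ℝ) * p) ^ r.card *
      (K * 2 ^ (i + i') * (i + 1) ^ K * (2 : ℝ) ^ (-(min i i' : ℝ) / K) *
        Real.exp (-(S.nm r / (2 * X / 2 ^ (i + i'))))) := by
      intro γ _
      rw [norm_mul, norm_mul, norm_pow, Complex.norm_natCast, norm_pow, Complex.norm_natCast]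
      have h2 := hH.bl₄G i i' y (cz S V u₀ z (S.bl q) c y) (al S ψ V u₀ z t c y P r q γ)
        (be S ψ V u₀ h z e I i t x χ c y P r q γ) (X / S.nm r) hi' (div_pos hX hnm)
        (al_norm S ψ V u₀ z t c y P r q γ)
        (be_norm S ψ V u₀ h hh z e I i t x χ c y P r q γ) (by
          intro D hD
          unfold be at hD
          by_cases h3 : Dc S V u₀ z e I i t c y P r q D ∧
            γ + ∑ q' ∈ D ∪ r, S.cls q' = S.cl₀
          · refine ⟨h3.1.inj.mono (by exact_mod_cast subset_union_left), ?_⟩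
            intro q' hq'
            have h4 := h3.1.all q' hq'
            exact ⟨h4.1, h4.2.1, ne_zero he ht h4.2.2.1⟩
          · rw [if_neg h3] at hD
            exact absurd rfl hD)
      have h3 : (2 : ℝ) ^ (i + i') / (2 * (X / S.nm r)) =
          S.nm r / (2 * X / 2 ^ (i + i')) := by
        field_simp
      rw [h3] at h2
      have h5 : (rsj S (S.bl q) r).card ≤ r.card := card_filter_le _ _
      have h6 : (r.filter V).card ≤ r.card := card_filter_le _ _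
      refine mul_le_mul ?_ h2 (norm_nonneg _) (by positivity)
      rw [mul_pow, mul_comm]
      exact mul_le_mul (pow_le_pow_right₀ hk h5) (pow_le_pow_right₀ hp h6) (by positivity)
        (by positivity)
    refine (sum_le_sum h1).trans ?_
    rw [sum_const, nsmul_eq_mul, card_univ]
  · have h1 : ∑ D ∈ (P \ r).powerset, ∑ P₁ ∈ P \ (D ∪ r),
      (if D = D₂z S V u₀ z e (insert P₁ (D ∪ r)) q P₁ t c y then
        gg S ψ V I₀ u₀ h z e N I i i' m t X x χ c y (insert P₁ (D ∪ r)) q P₁ else 0) = 0 := by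
      refine sum_eq_zero fun D hD ↦ sum_eq_zero fun P₁ hP₁ ↦ ?_
      rw [mem_powerset, subset_sdiff] at hD
      rw [mem_sdiff] at hP₁
      by_cases h1 : D = D₂z S V u₀ z e (insert P₁ (D ∪ r)) q P₁ t c y
      · rw [if_pos h1]
        unfold gg
        rw [if_neg]
        intro h2
        exact hR ((cond_iff S hN V I₀ u₀ z χ c y hD.1 hD.2 hq hP₁.2).1 ⟨h2, h1⟩).1
      · rw [if_neg h1]
    rw [h1, norm_zero]
    positivity

open Classical in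
lemma decomp (hdec : C_DEC) (Df : Finset B → B → B → Finset B)
    (hDf : ∀ (s : Finset B) (q P₁ : B), P₁ ∉ s →
      Df (insert P₁ s) q P₁ ⊆ s ∧ q ∉ Df (insert P₁ s) q P₁) (P : Finset B)
    (G : Finset B → B → B → ℂ) (hG : ∀ b q, G b q q = 0) :
    ∑ b ∈ P.powerset, ∑ q ∈ b, ∑ P₁ ∈ b, G b q P₁ =
      ∑ r ∈ P.powerset, ∑ q ∈ r, ∑ D ∈ (P \ r).powerset, ∑ P₁ ∈ P \ (D ∪ r),
        (if D = Df (insert P₁ (D ∪ r)) q P₁ then
          G (insert P₁ (D ∪ r)) q P₁ else 0) := by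
  obtain ⟨hd1, hd2, -⟩ := hdec B P
  have e1 := hd1 ℂ (fun P₁ s ↦ ∑ q ∈ s, G (insert P₁ s) q P₁)
  have e2 := hd2 ℂ (fun D r ↦ ∑ q ∈ r, ∑ P₁ ∈ P \ (D ∪ r),
        (if D = Df (insert P₁ (D ∪ r)) q P₁ then
          G (insert P₁ (D ∪ r)) q P₁ else 0))
  calc _ = ∑ b ∈ P.powerset, ∑ P₁ ∈ b, ∑ q ∈ b, G b q P₁ :=
        sum_congr rfl fun b _ ↦ sum_comm
    _ = ∑ b ∈ P.powerset, ∑ P₁ ∈ b, ∑ q ∈ b.erase P₁, G (insert P₁ (b.erase P₁)) q P₁ := by
        refine sum_congr rfl fun b _ ↦ sum_congr rfl fun P₁ hP₁ ↦ ?_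
        rw [insert_erase hP₁, ← add_sum_erase _ _ hP₁, hG, zero_add]
    _ = ∑ s ∈ P.powerset, ∑ P₁ ∈ P \ s, ∑ q ∈ s, G (insert P₁ s) q P₁ := e1
    _ = ∑ s ∈ P.powerset, ∑ D ∈ s.powerset, ∑ q ∈ s \ D, ∑ P₁ ∈ P \ (D ∪ (s \ D)),
        (if D = Df (insert P₁ (D ∪ (s \ D))) q P₁ then
          G (insert P₁ (D ∪ (s \ D))) q P₁ else 0) := by
        refine sum_congr rfl fun s _ ↦ ?_
        have h1 : ∀ D ∈ s.powerset, ∑ q ∈ s \ D, ∑ P₁ ∈ P \ (D ∪ (s \ D)),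
            (if D = Df (insert P₁ (D ∪ (s \ D))) q P₁ then
              G (insert P₁ (D ∪ (s \ D))) q P₁ else 0) =
            ∑ q ∈ s, ∑ P₁ ∈ P \ s, (if q ∉ D then
              (if D = Df (insert P₁ s) q P₁ then G (insert P₁ s) q P₁ else 0)
              else 0) := by
          intro D hD
          rw [union_sdiff_of_subset (mem_powerset.1 hD)]
          rw [← filter_notMem_eq_sdiff, sum_filter]
          refine sum_congr rfl fun q _ ↦ ?_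
          by_cases h2 : q ∉ D
          · simp only [if_pos h2]
          · simp only [if_neg h2, sum_const_zero]
        rw [sum_congr rfl h1, sum_comm (s := P \ s), sum_comm (s := s.powerset)]
        refine sum_congr rfl fun q _ ↦ ?_
        rw [sum_comm (s := s.powerset)]
        refine sum_congr rfl fun P₁ hP₁ ↦ ?_
        have hP : P₁ ∉ s := (mem_sdiff.1 hP₁).2
        rw [sum_eq_single (Df (insert P₁ s) q P₁)]
        · rw [if_pos (hDf s q P₁ hP).2, if_pos rfl]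
        · intro D _ hD
          rw [if_neg hD, ite_self]
        · intro h
          exact absurd (mem_powerset.2 (hDf s q P₁ hP).1) h
    _ = ∑ r ∈ P.powerset, ∑ D ∈ (P \ r).powerset, ∑ q ∈ r, ∑ P₁ ∈ P \ (D ∪ r),
        (if D = Df (insert P₁ (D ∪ r)) q P₁ then
          G (insert P₁ (D ∪ r)) q P₁ else 0) := e2
    _ = _ := sum_congr rfl fun r _ ↦ sum_comm

open Classical in
lemma fixed_le (hdec : C_DEC) [Fintype C] (ψ : AddChar k ℂ) {e : B → k}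
    {N : B → Prop} {g : ℝ → ℝ} {K : ℕ} (hH : HypG4 S ψ e N g K)
    (V I₀ : B → Prop) (hNV : ∀ q, N q → ¬ V q)
    (u₀ : k) (h : Finset B → (B → ZMod p) → ℂ) (hh : ∀ D z, ‖h D z‖ ≤ 1) (z : B → ZMod p)
    (I i i' m : ℕ) (hi' : 1 ≤ i') {t : k} (ht : t ≠ 0) {X : ℝ} (hX : 0 < X) (x : U)
    (χ : AddChar Λ ℂ) (c y : B → k) (P : Finset B) :
    ‖∑ b ∈ P.powerset with S.Fam b, ∑ q ∈ b with (Wv S b q ∧ m ≤ S.bl q ∧ I₀ q),
      ∑ P₁ ∈ b with (Piv S N b P₁ ∧ P₁ ≠ q ∧ S.bl P₁ = i'),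
      (if HC S V u₀ z e I i b q P₁ t χ c y then
      (Fintype.card k : ℂ) ^ (rs₄ S b q P₁).card *
      ph S ψ χ b x (cutd S (S.bl q) q P₁ t c) (cute S (S.bl q) q P₁ 0 0 y) *
      (Wz S (ps ψ u₀) V h z b * (Real.exp (-(S.nm b / X)) : ℂ)) else 0)‖ ≤
    ∑ r ∈ P.powerset, (r.card : ℝ) * (Fintype.card C * (((Fintype.card k : ℝ) * p) ^ r.card *
      (K * 2 ^ (i + i') * (i + 1) ^ K * (2 : ℝ) ^ (-(min i i' : ℝ) / K) *
        Real.exp (-(S.nm r / (2 * X / 2 ^ (i + i'))))))) := by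
  have e1 : ∑ b ∈ P.powerset with S.Fam b, ∑ q ∈ b with (Wv S b q ∧ m ≤ S.bl q ∧ I₀ q),
      ∑ P₁ ∈ b with (Piv S N b P₁ ∧ P₁ ≠ q ∧ S.bl P₁ = i'),
      (if HC S V u₀ z e I i b q P₁ t χ c y then
      (Fintype.card k : ℂ) ^ (rs₄ S b q P₁).card *
      ph S ψ χ b x (cutd S (S.bl q) q P₁ t c) (cute S (S.bl q) q P₁ 0 0 y) *
      (Wz S (ps ψ u₀) V h z b * (Real.exp (-(S.nm b / X)) : ℂ)) else 0) =
      ∑ b ∈ P.powerset, ∑ q ∈ b, ∑ P₁ ∈ b,
        gg S ψ V I₀ u₀ h z e N I i i' m t X x χ c y b q P₁ := by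
    rw [sum_filter]
    refine sum_congr rfl fun b _ ↦ ?_
    by_cases h1 : S.Fam b
    · rw [if_pos h1, sum_filter]
      refine sum_congr rfl fun q _ ↦ ?_
      by_cases h2 : Wv S b q ∧ m ≤ S.bl q ∧ I₀ q
      · rw [if_pos h2, sum_filter]
        refine sum_congr rfl fun P₁ _ ↦ ?_
        unfold gg
        by_cases h3 : Piv S N b P₁ ∧ P₁ ≠ q ∧ S.bl P₁ = i'
        · rw [if_pos h3]
          by_cases h4 : HC S V u₀ z e I i b q P₁ t χ c y
          · rw [if_pos h4, if_pos ⟨h1, h2, h3, h4⟩]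
          · rw [if_neg h4, if_neg (fun h ↦ h4 h.2.2.2)]
        · rw [if_neg h3, if_neg (fun h ↦ h3 h.2.2.1)]
      · rw [if_neg h2]
        refine (sum_eq_zero fun P₁ _ ↦ ?_).symm
        unfold gg
        rw [if_neg (fun h ↦ h2 h.2.1)]
    · rw [if_neg h1]
      refine (sum_eq_zero fun q _ ↦ sum_eq_zero fun P₁ _ ↦ ?_).symm
      unfold gg
      rw [if_neg (fun h ↦ h1 h.1)]
  rw [e1, decomp hdec (fun b q P₁ ↦ D₂z S V u₀ z e b q P₁ t c y) (fun s q P₁ hP ↦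
    ⟨fun q' hq' ↦ ((mem_D₂ S V u₀ z e t c y hP).1 hq').1,
      fun h ↦ ((mem_D₂ S V u₀ z e t c y hP).1 h).2.1 rfl⟩) P
    (gg S ψ V I₀ u₀ h z e N I i i' m t X x χ c y) (fun b q ↦ by
    unfold gg
    rw [if_neg (fun h ↦ h.2.2.1.2.1 rfl)])]
  refine (norm_sum_le _ _).trans (sum_le_sum fun r _ ↦ ?_)
  refine (norm_sum_le _ _).trans ?_
  refine (sum_le_sum fun q hq ↦ inner_le S ψ hH V I₀ hNV u₀ h hh z I i i' m hi' ht hX x χ c y
    P r hq).trans ?_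
  rw [sum_const, nsmul_eq_mul]

open Classical in
lemma total_le (hdec : C_DEC) [Fintype C] (ψ : AddChar k ℂ)
    {e : B → k} {N : B → Prop} {g : ℝ → ℝ} {K : ℕ}
    (hH : HypG4 S ψ e N g K) (V I₀ : B → Prop) (hNV : ∀ q, N q → ¬ V q)
    (u₀ : k) (h : Finset B → (B → ZMod p) → ℂ) (hh : ∀ D z, ‖h D z‖ ≤ 1) (z : B → ZMod p)
    (I i i' m : ℕ) (hi' : 1 ≤ i') {t : k} (ht : t ≠ 0) {X : ℝ}
    (hX : 0 < X) (P : Finset B) :
    ‖∑ b ∈ P.powerset with S.Fam b, ∑ q ∈ b with (Wv S b q ∧ m ≤ S.bl q ∧ I₀ q),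
      ∑ P₁ ∈ b with (Piv S N b P₁ ∧ P₁ ≠ q ∧ S.bl P₁ = i'),
        Wz S (ps ψ u₀) V h z b *
        ful₄ S ψ P b q P₁ t 0 0 (HC S V u₀ z e I i b q P₁ t) *
          (Real.exp (-(S.nm b / X)) : ℂ)‖ ≤
    Fintype.card U *
    ∑ r ∈ P.powerset, (r.card : ℝ) * (Fintype.card C * (((Fintype.card k : ℝ) * p) ^ r.card *
      (K * 2 ^ (i + i') * (i + 1) ^ K * (2 : ℝ) ^ (-(min i i' : ℝ) / K) *
        Real.exp (-(S.nm r / (2 * X / 2 ^ (i + i'))))))) := by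
  set M := ∑ r ∈ P.powerset, (r.card : ℝ) * (Fintype.card C *
    (((Fintype.card k : ℝ) * p) ^ r.card *
      (K * 2 ^ (i + i') * (i + 1) ^ K * (2 : ℝ) ^ (-(min i i' : ℝ) / K) *
        Real.exp (-(S.nm r / (2 * X / 2 ^ (i + i'))))))) with hM
  set Z : Finset (U × AddChar Λ ℂ × (B → k) × (B → k)) :=
    (univ : Finset U) ×ˢ (univ : Finset (AddChar Λ ℂ)) ×ˢ (lab k P) ×ˢ (lab k P) with hZ
  have hlab : 0 < (lab k P).card := card_pos.2 ⟨0, mem_lab.2 fun _ _ ↦ rfl⟩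
  have e0 : ∀ (b : Finset B) (q P₁ : B), Wz S (ps ψ u₀) V h z b *
        ful₄ S ψ P b q P₁ t 0 0 (HC S V u₀ z e I i b q P₁ t) *
          (Real.exp (-(S.nm b / X)) : ℂ) =
      ∑ v ∈ Z, (1 / (Fintype.card Λ * ((lab k P).card : ℂ) ^ 2)) *
        (if HC S V u₀ z e I i b q P₁ t v.2.1 v.2.2.1 v.2.2.2 then
        (Fintype.card k : ℂ) ^ (rs₄ S b q P₁).card *
          ph S ψ v.2.1 b v.1 (cutd S (S.bl q) q P₁ t v.2.2.1)
            (cute S (S.bl q) q P₁ 0 0 v.2.2.2) *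
          (Wz S (ps ψ u₀) V h z b * (Real.exp (-(S.nm b / X)) : ℂ)) else 0) := by
    intro b q P₁
    rw [hZ, ← Pool.Agent.Helper33.M3.ful₄_eq S ψ P b q P₁ t
      (HC S V u₀ z e I i b q P₁ t)
      (Wz S (ps ψ u₀) V h z b * (Real.exp (-(S.nm b / X)) : ℂ))]
    ring
  have e1 : ∑ b ∈ P.powerset with S.Fam b, ∑ q ∈ b with (Wv S b q ∧ m ≤ S.bl q ∧ I₀ q),
      ∑ P₁ ∈ b with (Piv S N b P₁ ∧ P₁ ≠ q ∧ S.bl P₁ = i'),
        Wz S (ps ψ u₀) V h z b *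
        ful₄ S ψ P b q P₁ t 0 0 (HC S V u₀ z e I i b q P₁ t) *
          (Real.exp (-(S.nm b / X)) : ℂ) =
      ∑ v ∈ Z, (1 / (Fintype.card Λ * ((lab k P).card : ℂ) ^ 2)) *
      ∑ b ∈ P.powerset with S.Fam b, ∑ q ∈ b with (Wv S b q ∧ m ≤ S.bl q ∧ I₀ q),
      ∑ P₁ ∈ b with (Piv S N b P₁ ∧ P₁ ≠ q ∧ S.bl P₁ = i'),
      (if HC S V u₀ z e I i b q P₁ t v.2.1 v.2.2.1 v.2.2.2 then
      (Fintype.card k : ℂ) ^ (rs₄ S b q P₁).card *
      ph S ψ v.2.1 b v.1 (cutd S (S.bl q) q P₁ t v.2.2.1)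
        (cute S (S.bl q) q P₁ 0 0 v.2.2.2) *
      (Wz S (ps ψ u₀) V h z b * (Real.exp (-(S.nm b / X)) : ℂ)) else 0) := by
    simp only [e0, mul_sum]
    calc _ = ∑ b ∈ P.powerset with S.Fam b, ∑ v ∈ Z,
        ∑ q ∈ b with (Wv S b q ∧ m ≤ S.bl q ∧ I₀ q),
        ∑ P₁ ∈ b with (Piv S N b P₁ ∧ P₁ ≠ q ∧ S.bl P₁ = i'),
          (1 / (Fintype.card Λ * ((lab k P).card : ℂ) ^ 2)) *
          (if HC S V u₀ z e I i b q P₁ t v.2.1 v.2.2.1 v.2.2.2 then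
      (Fintype.card k : ℂ) ^ (rs₄ S b q P₁).card *
      ph S ψ v.2.1 b v.1 (cutd S (S.bl q) q P₁ t v.2.2.1)
        (cute S (S.bl q) q P₁ 0 0 v.2.2.2) *
      (Wz S (ps ψ u₀) V h z b * (Real.exp (-(S.nm b / X)) : ℂ)) else 0) := by
          refine sum_congr rfl fun b _ ↦ ?_
          exact Eq.trans (sum_congr rfl fun q _ ↦ sum_comm) sum_comm
      _ = _ := sum_comm
  rw [e1]
  refine (norm_sum_le _ _).trans ?_
  have h1 : ∀ v ∈ Z, ‖(1 / (Fintype.card Λ * ((lab k P).card : ℂ) ^ 2)) *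
      ∑ b ∈ P.powerset with S.Fam b, ∑ q ∈ b with (Wv S b q ∧ m ≤ S.bl q ∧ I₀ q),
      ∑ P₁ ∈ b with (Piv S N b P₁ ∧ P₁ ≠ q ∧ S.bl P₁ = i'),
      (if HC S V u₀ z e I i b q P₁ t v.2.1 v.2.2.1 v.2.2.2 then
      (Fintype.card k : ℂ) ^ (rs₄ S b q P₁).card *
      ph S ψ v.2.1 b v.1 (cutd S (S.bl q) q P₁ t v.2.2.1)
        (cute S (S.bl q) q P₁ 0 0 v.2.2.2) *
      (Wz S (ps ψ u₀) V h z b * (Real.exp (-(S.nm b / X)) : ℂ)) else 0)‖ ≤
      1 / (Fintype.card Λ * ((lab k P).card : ℝ) ^ 2) * M := by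
    intro v _
    rw [norm_mul, norm_div, norm_one, norm_mul, norm_pow, Complex.norm_natCast,
      Complex.norm_natCast]
    exact mul_le_mul_of_nonneg_left (fixed_le S hdec ψ hH V I₀ hNV u₀ h hh z I i i' m hi' ht hX
      v.1 v.2.1 v.2.2.1 v.2.2.2 P) (by positivity)
  refine (sum_le_sum h1).trans ?_
  rw [sum_const, nsmul_eq_mul]
  have h3 : (Z.card : ℝ) = Fintype.card U * (Fintype.card Λ *
      ((lab k P).card : ℝ) ^ 2) := by
    rw [hZ, card_product, card_product, card_product, card_univ, card_univ, AddChar.card_eq]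
    push_cast
    ring
  rw [h3]
  have h7 : (0 : ℝ) < (lab k P).card := by exact_mod_cast hlab
  have h8 : (0 : ℝ) < Fintype.card Λ := by exact_mod_cast Fintype.card_pos
  refine le_of_eq ?_
  field_simp

end Main

end Pool.Agent.Helper88.TH.C4

namespace Pool.Agent.Helper88.TH

open Finset
open Pool.Agent.Helper11.M3
open Pool.Agent.Helper17.PP Pool.Agent.Helper17.PP0 Pool.Agent.Helper17.PP2
open Pool.Agent.Helper33.M3 (upto_sum pow_bound)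
open Pool.Agent.Helper88.TH.C4 (total_le)

open Classical in
/-- **G4_C** (`D₁z` small, `D₂z` large: bilinear sum in the pivot `P₁` and `D₂z`), from **C_DEC**. -/
theorem g4_c' (hdec : C_DEC) : Pool.Agent.Helper38.TH.G4_C := by
  intro p _ B B₀ k U Λ C _ _ _ _ _ _ _ _ _ _ _ S ψ e N g K hH
  have : Fintype C := Fintype.ofFinite C
  set Q : ℕ := Fintype.card k * p with hQ
  set n0 := Q * K with hn0
  set C1 : ℕ := 4 * Fintype.card U * Q * Fintype.card C * K ^ 3 * 3 ^ n0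
    with hC1
  refine ⟨C1 + n0, fun V I₀ u₀ h z hNV hIV hh I i i' m t X P hi hi' ht hX ↦ ?_⟩
  have hX0 : 0 < X := by linarith
  refine (total_le S hdec ψ hH V I₀ hNV u₀ h hh z I i i' m hi' ht hX0 P).trans ?_
  have hQr : (Fintype.card k : ℝ) * p = Q := by
    rw [hQ]
    push_cast
    rfl
  rw [hQr]
  set Y : ℝ := 2 * X / 2 ^ (i + i') with hY
  have hY0 : 0 < Y := by positivity
  have h2ij : (2 : ℝ) ≤ 2 ^ (i + i') := by
    calc (2 : ℝ) = 2 ^ 1 := by norm_num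
      _ ≤ 2 ^ (i + i') := pow_le_pow_right₀ (by norm_num) (by omega)
  have hYX : Y ≤ X := by
    rw [hY, div_le_iff₀ (by positivity)]
    nlinarith
  set w : ℝ := (2 : ℝ) ^ (-(min i i' : ℝ) / K) with hw
  have hw0 : 0 ≤ w := by positivity
  have hp1 : 1 ≤ p := (Fact.out : p.Prime).one_lt.le
  have hk1 : 1 ≤ Fintype.card k := Fintype.card_pos
  have hQ1 : 1 ≤ Q := by
    rw [hQ]
    exact Nat.mul_le_mul hk1 hp1
  have hQ0 : (0 : ℝ) < Q := by exact_mod_cast hQ1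
  have hpk : (p : ℝ) ≤ Fintype.card k := by
    exact_mod_cast Pool.Agent.Helper32.TH.p_le_card (p := p) (k := k)
  have hk0 : (1 : ℝ) ≤ Fintype.card k := by exact_mod_cast hk1
  have hK1 : (1 : ℝ) ≤ K := by exact_mod_cast hH.one_le
  have hgX : 1 ≤ g X := hH.g_one X
  have hgY : g Y ≤ K * g X := hH.g_mono Y X hYX
  have h1 := hH.htG (fun _ ↦ Q + 1) (fun q ↦ ⟨by positivity, by
    rw [← hQr]
    nlinarith⟩) Y hY0 P
  simp only [prod_const, add_sub_cancel_right] at h1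
  have h2 : ∑ q ∈ S.upto Y, (Q : ℝ) / S.N q ≤
      n0 * (1 + Real.log (lg X + 1)) := by
    have h3 := upto_sum S hH.toHypW hYX
    have h4 : ∑ q ∈ S.upto Y, (Q : ℝ) / S.N q =
        (Q : ℝ) * ∑ q ∈ S.upto Y, (1 : ℝ) / S.N q := by
      rw [mul_sum]
      exact sum_congr rfl fun q _ ↦ by ring
    rw [h4, hn0]
    push_cast
    rw [mul_assoc]
    exact mul_le_mul_of_nonneg_left h3 hQ0.le
  have hL0 : (0 : ℝ) < (lg X : ℝ) + 1 := by positivity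
  have h3 : Real.exp (∑ q ∈ S.upto Y, (Q : ℝ) / S.N q) ≤
      3 ^ n0 * ((lg X : ℝ) + 2) ^ n0 := by
    calc _ ≤ Real.exp (n0 * (1 + Real.log (lg X + 1))) := Real.exp_le_exp.2 h2
      _ = (Real.exp 1 * (lg X + 1)) ^ n0 := by
        rw [Real.exp_nat_mul, Real.exp_add, Real.exp_log hL0]
      _ ≤ (3 * ((lg X : ℝ) + 2)) ^ n0 := by
        have h4 : Real.exp 1 ≤ 3 := by
          have := Real.exp_one_lt_d9
          linarith
        refine pow_le_pow_left₀ (by positivity) ?_ _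
        refine mul_le_mul h4 (by linarith) hL0.le (by norm_num)
      _ = _ := by rw [mul_pow]
  have hmin : min 1 Y ≤ 2 * min 1 (X / 2 ^ (i + i')) := by
    have h5 : Y = 2 * (X / 2 ^ (i + i')) := by
      rw [hY]
      ring
    rw [h5]
    have h6 : 0 < X / 2 ^ (i + i') := by positivity
    rcases le_total 1 (X / 2 ^ (i + i')) with h7 | h7
    · rw [min_eq_left h7]
      exact (min_le_left _ _).trans (by norm_num)
    · rw [min_eq_right h7]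
      exact min_le_right _ _
  set mm : ℝ := min 1 (X / 2 ^ (i + i')) with hmm
  have hmm0 : 0 ≤ mm := by
    rw [hmm]
    exact le_min (by norm_num) (by positivity)
  -- the sum over `r`
  have h8 : ∑ r ∈ P.powerset, (r.card : ℝ) * (Fintype.card C * ((Q : ℝ) ^ r.card *
      (K * 2 ^ (i + i') * (i + 1) ^ K * w * Real.exp (-(S.nm r / Y))))) ≤
      Fintype.card C * (Q : ℝ) * (K * 2 ^ (i + i') * (i + 1) ^ K * w) *
        (K * (Y * (2 * mm) * (K * g X)) * (3 ^ n0 * ((lg X : ℝ) + 2) ^ n0)) := by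
    have e1 : ∑ r ∈ P.powerset, (r.card : ℝ) * (Fintype.card C *
        ((Q : ℝ) ^ r.card *
        (K * 2 ^ (i + i') * (i + 1) ^ K * w * Real.exp (-(S.nm r / Y))))) ≤
        Fintype.card C * (Q : ℝ) * (K * 2 ^ (i + i') * (i + 1) ^ K * w) *
        ∑ r ∈ P.powerset, ((Q : ℝ) + 1) ^ r.card * Real.exp (-(S.nm r / Y)) := by
      rw [mul_sum]
      refine sum_le_sum fun r _ ↦ ?_
      have e2 := pow_bound hQ0 r.card
      have e3 : (r.card : ℝ) * (Q : ℝ) ^ r.card ≤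
          (Q : ℝ) * ((Q : ℝ) + 1) ^ r.card := by
        have e4 : 0 ≤ (Q : ℝ) * (Q : ℝ) ^ r.card := by positivity
        nlinarith
      calc _ = ((r.card : ℝ) * (Q : ℝ) ^ r.card) * (Fintype.card C *
            (K * 2 ^ (i + i') * (i + 1) ^ K * w * Real.exp (-(S.nm r / Y)))) := by ring
        _ ≤ ((Q : ℝ) * ((Q : ℝ) + 1) ^ r.card) * (Fintype.card C *
            (K * 2 ^ (i + i') * (i + 1) ^ K * w * Real.exp (-(S.nm r / Y)))) :=
            mul_le_mul_of_nonneg_right e3 (by positivity)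
        _ = _ := by ring
    refine e1.trans ?_
    refine mul_le_mul_of_nonneg_left ?_ (by positivity)
    refine h1.trans ?_
    have hgY0 : 0 ≤ g Y := le_trans (by norm_num) (hH.g_one Y)
    have h9 : Y * min 1 Y * g Y ≤ Y * (2 * mm) * (K * g X) := by
      have h10 : 0 ≤ min 1 Y := le_min (by norm_num) hY0.le
      gcongr
    have h11 : 0 ≤ Y * min 1 Y * g Y := by
      have h10 : 0 ≤ min 1 Y := le_min (by norm_num) hY0.le
      positivity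
    refine mul_le_mul ?_ h3 (Real.exp_pos _).le ?_
    · exact mul_le_mul_of_nonneg_left h9 (by positivity)
    · have : 0 ≤ Y * (2 * mm) * (K * g X) := h11.trans h9
      positivity
  refine (mul_le_mul_of_nonneg_left h8 (by positivity)).trans ?_
  have h12 : (2 : ℝ) ^ (i + i') * Y = 2 * X := by
    rw [hY]
    field_simp
  have h13 : (Fintype.card U : ℝ) * (Fintype.card C *
      (Q : ℝ) * (K * 2 ^ (i + i') * (i + 1) ^ K * w) *
        (K * (Y * (2 * mm) * (K * g X)) * (3 ^ n0 * ((lg X : ℝ) + 2) ^ n0))) =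
      (C1 : ℝ) * ((lg X : ℝ) + 2) ^ n0 * (i + 1) ^ K * w * mm * (X * g X) := by
    rw [hC1]
    push_cast
    linear_combination ((Fintype.card U : ℝ) * Q * Fintype.card C * K ^ 3 *
      (i + 1) ^ K * w * 2 * mm * g X * 3 ^ n0 * ((lg X : ℝ) + 2) ^ n0) * h12
  rw [h13]
  have h14 : (C1 : ℝ) ≤ ((C1 + n0 : ℕ) : ℝ) := by
    push_cast
    have : (0 : ℝ) ≤ n0 := Nat.cast_nonneg _
    linarith
  have h15 : ((lg X : ℝ) + 2) ^ n0 ≤ ((lg X : ℝ) + 2) ^ (C1 + n0) := by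
    refine pow_le_pow_right₀ ?_ (by omega)
    have : (0 : ℝ) ≤ lg X := Nat.cast_nonneg _
    linarith
  have h16 : 0 ≤ X * g X := by positivity
  gcongr

/-- **G4_C** -/
theorem g4_c : Pool.Agent.Helper38.TH.G4_C := g4_c' Pool.Agent.Helper22.PP.c_dec

end Pool.Agent.Helper88.TH
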