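import Pool.Agent.Helper88.TH.EXA1

/-!
# Project TH (MP_fc6b1e_nt), packet T_EXA
-/

set_option autoImplicit false

namespace Pool.Agent.Helper88.TH

open NumberField Polynomial Module IsDedekindDomain
open Pool.Agent.Helper51.RP Pool.Agent.Helper42.RD Pool.Agent.Helper42.PP Pool.Agent.Helper42.PP1
open Pool.Agent.Helper51.SigLeo Pool.Agent.Helper11.LE Pool.Agent.Helper11.PP
open Pool.Agent.Helper77.PPS Pool.Agent.Helper77.PPO
open Pool.Agent.Helper17.PP (Sys lg)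
open Pool.Agent.Helper42.PB Pool.Agent.Helper42.PW
open Pool.Agent.Helper38.ND
open Pool.Agent.Helper38.WY
open Pool.Agent.Helper11.M3 (HypW)
open Pool.Agent.Helper76.PP (psK)
open Pool.Agent.Helper17.PB (sv0B lowB fam_ex)
open Pool.Agent.Helper42.WY
open Pool.Agent.Helper38.TH
open Pool.Agent.Helper42.TH
open Pool.Agent.Helper86.ND (sub_fin sub_card sub_card2)
open Pool.Agent.Helper87.PW (coreV)

theorem card_AR (p : ℕ) [hp : Fact p.Prime] [Fact (Irreducible (X - 1 : (ZMod p)[X]))]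
    [Fintype (AdjoinRoot (X - 1 : (ZMod p)[X]))] :
    Fintype.card (AdjoinRoot (X - 1 : (ZMod p)[X])) = p := by
  have h0 : (X - 1 : (ZMod p)[X]) ≠ 0 :=
    (Fact.out : Irreducible (X - 1 : (ZMod p)[X])).ne_zero
  have hfin : Module.Finite (ZMod p) (AdjoinRoot (X - 1 : (ZMod p)[X])) :=
    (AdjoinRoot.powerBasis h0).finite
  have h1 := Module.card_eq_pow_finrank (K := ZMod p) (V := AdjoinRoot (X - 1 : (ZMod p)[X]))
  rw [ZMod.card, (AdjoinRoot.powerBasis h0).finrank, AdjoinRoot.powerBasis_dim] at h1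
  have h2 : (X - 1 : (ZMod p)[X]).natDegree = 1 := by
    have : (X - 1 : (ZMod p)[X]) = X - C 1 := by rw [C_1]
    rw [this, natDegree_X_sub_C]
  rw [h2, pow_one] at h1
  exact h1

open Classical in
/-- The data of the trivial moment theorem. -/
theorem datT (p : ℕ) [hpF : Fact p.Prime]
    (K K₁ : Type) [Field K] [NumberField K] [Field K₁] [NumberField K₁] [IsTotallyComplex K₁]
    [Algebra K K₁] (ε : K₁) (hC : Cyc p K K₁ ε)
    [Fact (Irreducible (X - 1 : (ZMod p)[X]))]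
    [instA : Fintype (AdjoinRoot (X - 1 : (ZMod p)[X]))]
    (S₀ : Finset (HeightOneSpectrum (𝓞 K))) :
    ∃ (B : Base p K K K₁ K₁ ε (1 : K ≃ₐ[K] K) (X - 1)) (E : TauF 0 B)
      (ψ : AddChar (AdjoinRoot (X - 1 : (ZMod p)[X])) ℂ) (g : ℝ → ℝ) (K₀ : ℝ),
      S₀ ⊆ B.S ∧ Slow g K₀ ∧ ∀ aτ : K₁ˣ, ∃ (Ka : ℕ) (Kc c X₁ : ℝ), 0 < c ∧
        HypW (sysB B E (Spl K₁ B.S) 0 aτ) ψ g Ka ∧
        AnaG (sysB B E (Spl K₁ B.S) 0 aτ) (fun _ => False) g 0 Kc c X₁ := by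
  have hp : p.Prime := hpF.out
  have hg := hC.gal
  have hB := sitB_triv hC
  have hs := hB.sit
  obtain ⟨B, hSB, ⟨D⟩⟩ := Pool.Agent.Helper53.PW.w_exb p K K K₁ K₁ K K₁ ε (1 : K ≃ₐ[K] K)
    (X - 1) 1 hB S₀
  have hdv := Pool.Agent.Helper14.RD.finrank_dvd_pred p K K₁ ε hs.prim hs.gen
  have hp1 : 1 < p := hp.one_lt
  have hd0 : 0 < finrank K K₁ := finrank_pos
  set κ : ℝ := ((p : ℝ) - 1) / finrank K K₁ with hκ
  have hκ1 : 1 ≤ κ := by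
    rw [hκ, le_div_iff₀ (by exact_mod_cast hd0), one_mul]
    have h : finrank K K₁ ≤ p - 1 := Nat.le_of_dvd (by omega) hdv
    have h' : ((finrank K K₁ : ℕ) : ℝ) ≤ ((p - 1 : ℕ) : ℝ) := by exact_mod_cast h
    rwa [Nat.cast_sub hp1.le, Nat.cast_one] at h'
  obtain ⟨g1, g2, g3, -⟩ := h_g κ hκ1
  have h2k : (1 : ℝ) ≤ 2 ^ (κ - 1) := Real.one_le_rpow (by norm_num) (by linarith)
  have hslow : Slow (gK κ) (2 ^ (κ - 1)) := ⟨g1, fun Y X h ↦ (by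
      calc gK κ Y ≤ gK κ X := g2 Y X h
      _ = 1 * gK κ X := (one_mul _).symm
      _ ≤ 2 ^ (κ - 1) * gK κ X :=
        mul_le_mul_of_nonneg_right h2k (by linarith [g1 X])), fun X _ ↦ g3 X⟩
  let E : TauF 0 B :=
    { h := fun j => j.elim0
      hP := fun j => j.elim0
      hL := fun j => j.elim0
      hI := fun c _ => by funext j; exact j.elim0 }
  obtain ⟨tr, htr⟩ := Pool.Agent.Helper12.PP.kap_tr p (X - 1 : (ZMod p)[X]) hs.irr
  obtain ⟨ψ₁, hψ₁⟩ := Pool.Agent.Helper12.PP.kap_ex p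
  have hpsK : psK tr ψ₁ ≠ 1 := by
    intro h
    apply one_ne_zero (α := ZMod p)
    apply Pool.Agent.Helper12.PP.kap_psi p ψ₁ hψ₁
    obtain ⟨x, hx⟩ := Pool.Agent.Helper12.PP.kap_surj p (X - 1 : (ZMod p)[X]) tr htr 1
    have h1 := DFunLike.congr_fun h x
    rw [← hx]
    exact h1
  refine ⟨B, E, psK tr ψ₁, gK κ, 2 ^ (κ - 1), hSB, hslow, fun aτ => ?_⟩
  obtain ⟨Ka, hKa⟩ := sv0B p K K K₁ K₁ K₁ ε (1 : K ≃ₐ[K] K) (X - 1) B E hdv 0 aτ
    ((Fintype.card (AdjoinRoot (X - 1 : (ZMod p)[X])) : ℝ) + 4)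
  have hSV := hKa Ka le_rfl
  have hW : HypW (sysB B E (Spl K₁ B.S) 0 aτ) (psK tr ψ₁) (gK κ) Ka :=
    { one_le := hSV.one_le
      ψ_ne := hpsK
      che := hSV.che
      g_one := hSV.g_one
      g_mono := hSV.g_mono
      ht := hSV.ht
      mers := hSV.mers }
  obtain ⟨b, hb1, hb2⟩ := fam_ex p K K K₁ K₁ ε (1 : K ≃ₐ[K] K) (X - 1) hs B
    (sysB B E (Spl K₁ B.S) 0 aτ).cl₀
  obtain ⟨c, X₁, hc, hlow⟩ := lowB p K K K₁ K₁ ε (1 : K ≃ₐ[K] K) (X - 1) B E (Spl K₁ B.S) 0 aτ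
    ⟨b, hb1, hb2⟩
  obtain ⟨Kc, c', X₁', hc', hana⟩ := anhG B E (Spl K₁ B.S) 0 aτ (fun _ => False) (psK tr ψ₁)
    (gK κ) Ka hW (2 ^ (κ - 1)) hslow c X₁ hc hlow 0 le_rfl (by
      intro w hw ε' hε'
      refine ⟨1, fun X hX Q => ?_⟩
      have h1 : 0 ≤ ε' * (X * gK κ X) := by
        have hX0 : (0 : ℝ) ≤ X := by linarith
        have := g1 X
        positivity
      simp only [and_false, Finset.filter_false, Finset.sum_empty, zero_mul, zero_add]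
      exact h1)
  exact ⟨Ka, Kc, c', X₁', hc', hW, hana⟩

open Classical in
theorem t_exa : T_EXA := by
  intro hT1 hT2 hCND p hpF L K K₁ _ _ _ _ _ _ ε hC S₀ A f hA hAne hf
  have hLAB : V_LAB := Pool.Agent.Helper42.PB.v_lab
  have hp : p.Prime := hpF.out
  have hsit := (sitB_triv hC).sit
  have hirr : Fact (Irreducible (X - 1 : (ZMod p)[X])) := ⟨hsit.irr⟩
  have hP0 : (X - 1 : (ZMod p)[X]) ≠ 0 := hsit.irr.ne_zero
  have hfinA : Module.Finite (ZMod p) (AdjoinRoot (X - 1 : (ZMod p)[X])) :=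
    (AdjoinRoot.powerBasis hP0).finite
  have hfA : Finite (AdjoinRoot (X - 1 : (ZMod p)[X])) := Module.finite_of_finite (ZMod p)
  let instA : Fintype (AdjoinRoot (X - 1 : (ZMod p)[X])) := Fintype.ofFinite _
  have hcard : (Fintype.card (AdjoinRoot (X - 1 : (ZMod p)[X])) : ℝ) = p := by
    exact_mod_cast card_AR p
  obtain ⟨B, E, ψ, g, K₀g, hS₀, hslow, hdat⟩ := datT p K K₁ ε hC S₀
  have := hsit.gK
  have := hsit.st2
  have := hsit.gMK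
  have hTAU : D_TAU := Pool.Agent.Helper15.PP.d_tau Pool.Agent.Helper74.PP.p_lfi
  obtain ⟨F₀, hF₀, huq⟩ := hTAU p K₁ (up K₁ B.S) (up_finite B.S)
    {a : K₁ˣ | OmType p K ε (a : K₁) ∧ clp p a ∈ A}
  have hF₀1 : ∀ τ : F₀, OmType p K ε ((τ : K₁ˣ) : K₁) := fun τ => (hF₀ τ τ.2).1
  have hne : Nonempty F₀ := by
    obtain ⟨a, ha, haA⟩ := hAne
    obtain ⟨τ, ⟨h2, -⟩, -⟩ := huq a ⟨ha, haA⟩
    exact ⟨⟨τ, h2⟩⟩
  have hE' : ∀ τ : F₀, ∃ (Ka : ℕ) (Kc c X₁ : ℝ), 0 < c ∧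
        HypW (sysB B E (Spl K₁ B.S) 0 τ) ψ g Ka ∧
        AnaG (sysB B E (Spl K₁ B.S) 0 τ) (fun _ => False) g 0 Kc c X₁ := fun τ => hdat τ
  choose Ka Kτ c X₁ hc hW hS using hE'
  have hL : ∀ τ : F₀, _ := fun τ => hLAB p ℂ_[p] L K K K₁ K₁ ε 1 (X - 1) hsit B τ 0 E
    (Spl K₁ B.S) 0 (hF₀1 τ)
  obtain ⟨Kc, c', X', hKc, hc', hcc, hX'⟩ := common (fun τ : F₀ => max K₀g (Kτ τ)) c X₁ hc
  obtain ⟨τ₀⟩ := hne
  have hne : Nonempty F₀ := ⟨τ₀⟩
  have hKc0 : Slow g Kc := slow_mono hslow ((le_max_left _ _).trans (hKc τ₀))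
  have hval1 : ∀ a : K₁ˣ, OmType p K ε (a : K₁) → ∀ v ∈ B.calP,
      ∀ W : HeightOneSpectrum (𝓞 K₁), Above W v →
      ((p : ℤ) ∣ ordv W (a : K₁) ↔ ordp p (B.Q v) a = 0) := by
    intro a ha v hv W hW
    exact ((hL τ₀).1 a ha).2.1 v hv W hW
  have hval2 : ∀ a : K₁ˣ, OmType p K ε (a : K₁) → ∀ v ∉ B.S, v ∉ B.calP →
      ∀ W : HeightOneSpectrum (𝓞 K₁), Above W v → (p : ℤ) ∣ ordv W (a : K₁) := by
    intro a ha v hv hv' W hW
    exact ((hL τ₀).1 a ha).2.2.1 v hv hv' W hW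
  have hmem : ∀ a : K₁ˣ, OmType p K ε (a : K₁) → ∀ q : B.LP,
      q ∈ B.lab a ↔ ordp p (B.Q q.1.1) a = (q.1.2 : ZMod p) := fun a ha =>
    Pool.Agent.Helper11.PP.mem_lab B ((hL τ₀).1 a ha).1
  have hFT : ∀ τ : F₀, ∃ F : ℕ, 1 ≤ F ∧ ∀ a : K₁ˣ, OmType p K ε (a : K₁) →
      LocS p (up K₁ B.S) (a / (τ : K₁ˣ)) →
      f (clp p a) = F * ∏ q ∈ B.lab a, Ideal.absNorm q.1.1.asIdeal := by
    intro τ
    obtain ⟨F, hF1, hF2⟩ := hCND p K K₁ ε S₀ B.S B.calP B.Q τ f hS₀ (fun v hv => hv.1)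
      (fun v hv => (B.Qa v hv).1) hf (hF₀1 τ)
    exact ⟨F, hF1, fun a ha hl => hF2 a (B.lab a) ha hl (hval1 a ha)
      (fun v hv hv' W hW => hval2 a ha v hv hv' W hW) (hmem a ha)⟩
  choose FT hFT1 hFT2 using hFT
  -- the constant
  obtain ⟨Km, hKm⟩ : ∃ Km : ℕ, ∀ τ : F₀, Ka τ ≤ Km :=
    ⟨∑ τ, Ka τ, fun τ => Finset.single_le_sum (f := Ka) (fun _ _ => Nat.zero_le _)
      (Finset.mem_univ τ)⟩
  have hp1 : (1 : ℝ) ≤ (p : ℝ) - 1 := by
    have : (2 : ℝ) ≤ p := by exact_mod_cast hp.two_le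
    linarith
  have hKm1 : (1 : ℝ) ≤ Km := by
    have h1 := (hW τ₀).one_le
    exact_mod_cast h1.trans (hKm τ₀)
  set C₀ : ℝ := (3 * (Km : ℝ) ^ 2 * ((p : ℝ) - 1) + 3 * Km * Real.exp (B.S.card : ℝ)) / c'
    with hC₀
  have hC₀pos : 0 < C₀ := by positivity
  refine ⟨C₀, hC₀pos, ?_⟩
  intro V W ρ κ K₀ hρ hκ hK₀ hV hMer hWs Ta Tb r hTa hTb η hη
  -- the threshold for small classes
  obtain ⟨Z, hZ⟩ : ∃ Z : ℕ, ∀ v ∈ B.S, Ta * bv v < Nat.log 2 Z := by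
    refine ⟨2 ^ (∑ v ∈ B.S, Ta * bv v + 1), fun v hv => ?_⟩
    rw [Nat.log_pow (by norm_num)]
    have := Finset.single_le_sum (f := fun v => Ta * bv v) (fun _ _ => Nat.zero_le _) hv
    exact Nat.lt_succ_of_le this
  have hT1' : (1 : ℝ) ≤ 4 * Ta := by
    have : (1 : ℝ) ≤ Ta := by exact_mod_cast hTa
    linarith
  have hlog : 0 ≤ Real.log (4 * Ta) := Real.log_nonneg hT1'
  set θ : ℝ := C₀ * (ρ * (Real.log (4 * Ta) + 2) +
        (p : ℝ) ^ r * Real.exp K₀ * (4 / (Tb : ℝ)) ^ (κ / 2)) with hθdef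
  have hTb4 : (0 : ℝ) ≤ 4 / (Tb : ℝ) := by positivity
  have hθ : 0 ≤ θ := by
    have h1 : 0 ≤ (4 / (Tb : ℝ)) ^ (κ / 2) := Real.rpow_nonneg hTb4 _
    have h2 : 0 ≤ ρ * (Real.log (4 * Ta) + 2) := mul_nonneg hρ (by linarith)
    positivity
  -- the bad sets
  let bad : F₀ → Finset B.LP → Prop := fun τ b =>
    FT τ * (sysB B E (Spl K₁ B.S) 0 τ).nm b < Z ∨
      (∃ q ∈ b, q.1.1 ∈ V ∧ Nat.log 2 (FT τ * (sysB B E (Spl K₁ B.S) 0 τ).nm b) ≤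
        Ta * (sysB B E (Spl K₁ B.S) 0 τ).bl q) ∨
      (b.filter fun q ↦ q.1.1 ∈ W ∧ Nat.log 2 (FT τ * (sysB B E (Spl K₁ B.S) 0 τ).nm b) ≤
        Tb * (sysB B E (Spl K₁ B.S) 0 τ).bl q).card < r
  have hbad : ∀ (τ : F₀) (a : K₁ˣ), clp p a ∈ ExC V W Ta Tb r f → OmType p K ε (a : K₁) →
      LocS p (up K₁ B.S) (a / τ) → bad τ (B.lab a) := by
    intro τ a hex ha hl
    have hfa : f (clp p a) = FT τ * (sysB B E (Spl K₁ B.S) 0 τ).nm (B.lab a) := hFT2 τ a ha hl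
    have hvc : ∀ v : HeightOneSpectrum (𝓞 K), v ∉ B.S → ValC (clp p a) v →
        ∃ q ∈ B.lab a, q.1.1 = v := by
      intro v hv hval
      rw [Pool.Agent.Helper85.PP.valC_iff] at hval
      obtain ⟨W', hW', hd⟩ := hval
      have hcal : v ∈ B.calP := by
        by_contra hn
        exact hd (hval2 a ha v hv hn W' hW')
      have h0 : ordp p (B.Q v) a ≠ 0 := fun h => hd ((hval1 a ha v hcal W' hW').2 h)
      refine ⟨⟨(v, Units.mk0 _ h0), hcal⟩, ?_, rfl⟩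
      rw [hmem a ha]
      rfl
    have hvc2 : ∀ q ∈ B.lab a, ValC (clp p a) q.1.1 := by
      intro q hq
      rw [hmem a ha] at hq
      rw [Pool.Agent.Helper85.PP.valC_iff]
      refine ⟨B.Q q.1.1, (B.Qa q.1.1 q.2).1, fun hd => ?_⟩
      have h1 := (hval1 a ha q.1.1 q.2 (B.Q q.1.1) (B.Qa q.1.1 q.2).1).1 hd
      rw [hq] at h1
      exact q.1.2.ne_zero h1
    by_cases hsmall : FT τ * (sysB B E (Spl K₁ B.S) 0 τ).nm (B.lab a) < Z
    · exact Or.inl hsmall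
    right
    rcases hex with ⟨v, hvV, hval, hlogv⟩ | hcard2
    · left
      have hvS : v ∉ B.S := by
        intro hv
        have h1 := hZ v hv
        have h2 : Nat.log 2 Z ≤ Nat.log 2 (f (clp p a)) := by
          refine Nat.log_mono_right ?_
          rw [hfa]
          exact not_lt.1 hsmall
        omega
      obtain ⟨q, hq, rfl⟩ := hvc v hvS hval
      refine ⟨q, hq, hvV, ?_⟩
      rw [← hfa]
      exact hlogv
    · right
      refine lt_of_le_of_lt ?_ hcard2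
      rw [← Set.ncard_coe_finset]
      have hfin : {v | v ∈ W ∧ ValC (clp p a) v ∧ Nat.log 2 (f (clp p a)) ≤ Tb * bv v}.Finite := by
        refine ((B.lab a).image (fun q => q.1.1) ∪ B.S).finite_toSet.subset ?_
        rintro v ⟨-, hval, -⟩
        rw [Finset.mem_coe, Finset.mem_union]
        by_cases hv : v ∈ B.S
        · exact Or.inr hv
        · obtain ⟨q, hq, rfl⟩ := hvc v hv hval
          exact Or.inl (Finset.mem_image.2 ⟨q, hq, rfl⟩)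
      refine Set.ncard_le_ncard_of_injOn (fun q => q.1.1) ?_ ?_ hfin
      · intro q hq
        rw [Finset.mem_coe, Finset.mem_filter] at hq
        refine ⟨hq.2.1, hvc2 q hq.1, ?_⟩
        rw [hfa]
        exact hq.2.2
      · intro q hq q' hq' hqq
        rw [Finset.mem_coe, Finset.mem_filter, hmem a ha] at hq hq'
        have hqq' : q.1.1 = q'.1.1 := hqq
        have h1 := hq.1
        rw [hqq', hq'.1] at h1
        exact Subtype.ext (Prod.ext hqq' (Units.ext h1.symm))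
  -- the count
  have hcount : ∀ τ : F₀, ∀ η' : ℝ, 0 < η' → ∃ X₀ : ℝ, ∀ X : ℝ, X₀ ≤ X →
      ({b | (sysB B E (Spl K₁ B.S) 0 τ).Fam b ∧ bad τ b ∧
        ((sysB B E (Spl K₁ B.S) 0 τ).nm b : ℝ) ≤ X}.ncard : ℝ) ≤
      θ * {b | (sysB B E (Spl K₁ B.S) 0 τ).Fam b ∧
        ((sysB B E (Spl K₁ B.S) 0 τ).nm b : ℝ) ≤ X}.ncard + η' * (X * g X) := by
    intro τ η' hη'
    obtain ⟨X₀, hX₀⟩ := badcount hT1 hT2 (sysB B E (Spl K₁ B.S) 0 τ) ψ g (Ka τ) (hW τ)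
      (fun q => q.1.1 ∈ V) (fun q => q.1.1 ∈ W) (((p : ℝ) - 1) * ρ) κ (K₀ + B.S.card)
      (by positivity) (fun T hT => labV B E _ _ _ hV T hT) hκ (by positivity)
      (fun m n hm hn => labW B E _ _ _ hMer hWs m n hm hn) (FT τ) Ta Tb r Z (hFT1 τ) hTa hTb
      η' hη'
    refine ⟨max X₀ (max X' 1), fun X hX => ?_⟩
    have hXa : X₀ ≤ X := (le_max_left _ _).trans hX
    have hXb : X' ≤ X := (le_max_left _ _).trans ((le_max_right _ _).trans hX)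
    have hXc : 1 ≤ X := (le_max_right _ _).trans ((le_max_right _ _).trans hX)
    have hXg : 0 ≤ X * g X := by
      have := hslow.one X
      positivity
    have hsub : {b | (sysB B E (Spl K₁ B.S) 0 τ).Fam b ∧ bad τ b ∧
        ((sysB B E (Spl K₁ B.S) 0 τ).nm b : ℝ) ≤ X} ⊆
        {b | bad τ b ∧ ((sysB B E (Spl K₁ B.S) 0 τ).nm b : ℝ) ≤ X} := fun b hb => hb.2
    have h1 := Set.ncard_le_ncard hsub (Pool.Agent.Helper9.ND.fin_fam _ X (bad τ))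
    have h2 : ({b | (sysB B E (Spl K₁ B.S) 0 τ).Fam b ∧ bad τ b ∧
        ((sysB B E (Spl K₁ B.S) 0 τ).nm b : ℝ) ≤ X}.ncard : ℝ) ≤
        (({b | bad τ b ∧ ((sysB B E (Spl K₁ B.S) 0 τ).nm b : ℝ) ≤ X}.ncard : ℕ) : ℝ) := by
      exact_mod_cast h1
    refine h2.trans ((hX₀ X hXa).trans ?_)
    have h3 := (hS τ).2.1 X (by linarith) ((hX' τ).trans hXb)
    have h4 : c' * (X * g X) ≤ {b | (sysB B E (Spl K₁ B.S) 0 τ).Fam b ∧
        ((sysB B E (Spl K₁ B.S) 0 τ).nm b : ℝ) ≤ X}.ncard :=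
      (mul_le_mul_of_nonneg_right (hcc τ) hXg).trans h3
    have h5 : 3 * (Ka τ : ℝ) ^ 2 * (((p : ℝ) - 1) * ρ * (Real.log (4 * Ta) + 2)) +
        3 * (Ka τ : ℝ) * (Fintype.card (AdjoinRoot (Polynomial.X - 1 : (ZMod p)[X])) : ℝ) ^ r *
          Real.exp (K₀ + B.S.card) * (4 / (Tb : ℝ)) ^ (κ / 2) ≤ θ * c' := by
      rw [hcard, Real.exp_add]
      have hKa : (Ka τ : ℝ) ≤ Km := by exact_mod_cast hKm τ
      have hKa0 : (0 : ℝ) ≤ Ka τ := Nat.cast_nonneg _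
      set a1 : ℝ := ρ * (Real.log (4 * Ta) + 2) with ha1
      set a2 : ℝ := (p : ℝ) ^ r * Real.exp K₀ * (4 / (Tb : ℝ)) ^ (κ / 2) with ha2
      have ha1p : 0 ≤ a1 := mul_nonneg hρ (by linarith)
      have ha2p : 0 ≤ a2 := by
        have h1 : 0 ≤ (4 / (Tb : ℝ)) ^ (κ / 2) := Real.rpow_nonneg hTb4 _
        positivity
      have hθc : θ * c' = (3 * (Km : ℝ) ^ 2 * ((p : ℝ) - 1) +
          3 * Km * Real.exp (B.S.card : ℝ)) * (a1 + a2) := by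
        rw [hθdef, hC₀]
        field_simp
      rw [hθc]
      have e1 : 3 * (Ka τ : ℝ) ^ 2 * (((p : ℝ) - 1) * ρ * (Real.log (4 * Ta) + 2)) +
          3 * (Ka τ : ℝ) * (p : ℝ) ^ r * (Real.exp K₀ * Real.exp (B.S.card : ℝ)) *
            (4 / (Tb : ℝ)) ^ (κ / 2) =
          3 * (Ka τ : ℝ) ^ 2 * ((p : ℝ) - 1) * a1 +
            3 * (Ka τ : ℝ) * Real.exp (B.S.card : ℝ) * a2 := by
        rw [ha1, ha2]; ring
      rw [e1]
      have e2 : 3 * (Ka τ : ℝ) ^ 2 * ((p : ℝ) - 1) * a1 ≤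
          3 * (Km : ℝ) ^ 2 * ((p : ℝ) - 1) * a1 := by
        gcongr
      have e3 : 3 * (Ka τ : ℝ) * Real.exp (B.S.card : ℝ) * a2 ≤
          3 * (Km : ℝ) * Real.exp (B.S.card : ℝ) * a2 := by
        gcongr
      have e4 : 0 ≤ 3 * (Km : ℝ) ^ 2 * ((p : ℝ) - 1) * a2 := by positivity
      have e5 : 0 ≤ 3 * (Km : ℝ) * Real.exp (B.S.card : ℝ) * a1 := by positivity
      nlinarith
    have h6 : (3 * (Ka τ : ℝ) ^ 2 * (((p : ℝ) - 1) * ρ * (Real.log (4 * Ta) + 2)) +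
        3 * (Ka τ : ℝ) * (Fintype.card (AdjoinRoot (Polynomial.X - 1 : (ZMod p)[X])) : ℝ) ^ r *
          Real.exp (K₀ + B.S.card) * (4 / (Tb : ℝ)) ^ (κ / 2) + η') * (X * g X) ≤
        θ * (c' * (X * g X)) + η' * (X * g X) := by
      have := mul_le_mul_of_nonneg_right h5 hXg
      linarith
    exact h6.trans (add_le_add (mul_le_mul_of_nonneg_left h4 hθ) le_rfl)
  have e1 : ∀ (τ : F₀) (X : ℝ), {b : {b : Finset B.LP // (sysB B E (Spl K₁ B.S) 0 τ).Fam b} |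
        ((∏ q ∈ b.1, Ideal.absNorm q.1.1.asIdeal : ℕ) : ℝ) ≤ X}.ncard =
      {b | (sysB B E (Spl K₁ B.S) 0 τ).Fam b ∧
        ((sysB B E (Spl K₁ B.S) 0 τ).nm b : ℝ) ≤ X}.ncard :=
    fun τ X => sub_card (P := fun b => (sysB B E (Spl K₁ B.S) 0 τ).Fam b)
      (f := (sysB B E (Spl K₁ B.S) 0 τ).nm)
  have e2 : ∀ (τ : F₀) (X : ℝ), {b : {b : Finset B.LP // (sysB B E (Spl K₁ B.S) 0 τ).Fam b} |
        b ∈ {b : {b : Finset B.LP // (sysB B E (Spl K₁ B.S) 0 τ).Fam b} |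
          bad τ b.1} ∧
        ((∏ q ∈ b.1, Ideal.absNorm q.1.1.asIdeal : ℕ) : ℝ) ≤ X}.ncard =
      {b | (sysB B E (Spl K₁ B.S) 0 τ).Fam b ∧ bad τ b ∧
        ((sysB B E (Spl K₁ B.S) 0 τ).nm b : ℝ) ≤ X}.ncard :=
    fun τ X => sub_card2 (P := fun b => (sysB B E (Spl K₁ B.S) 0 τ).Fam b)
      (Q := fun b => bad τ b) (f := (sysB B E (Spl K₁ B.S) 0 τ).nm)
  have hfinal := coreV B Pool.Agent.Helper50.ND.n_abs S₀ hS₀ A hA f F₀ hne
    (fun c hc => hF₀ c hc) (fun a h1 h2 => huq a ⟨h1, h2⟩)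
    (fun τ b => (sysB B E (Spl K₁ B.S) 0 τ).Fam b)
    (fun τ b => bad τ b)
    (fun τ a ha hl => ((hL τ).1 a ha).2.2.2 hl)
    (fun τ b hb => (hL τ).2.1 b hb)
    (fun τ a a' ha ha' hl hl' hlab => (hL τ).2.2.1 a a' ha ha' hl hl' hlab)
    (ExC V W Ta Tb r f) (fun τ a hcB ha hl => hbad τ a hcB ha hl) FT hFT1 hFT2
    g Kc c' X' θ hc' hθ hKc0
    (fun τ X hX => by
      obtain ⟨h1, h2⟩ := (hS τ).1 X hX
      refine ⟨sub_fin h1, ?_⟩
      rw [e1]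
      refine h2.trans ?_
      refine mul_le_mul_of_nonneg_right ((le_max_right _ _).trans (hKc τ)) ?_
      exact mul_nonneg hX.le (zero_le_one.trans (hslow.one X)))
    (fun τ X hX hX1 => by
      rw [e1]
      refine le_trans ?_ ((hS τ).2.1 X hX ((hX' τ).trans hX1))
      refine mul_le_mul_of_nonneg_right (hcc τ) ?_
      exact mul_nonneg hX.le (zero_le_one.trans (hslow.one X)))
    (fun η hη => by
      have h1 : ∀ τ : F₀, _ := fun τ => hcount τ η hη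
      choose X₀ hX₀ using h1
      refine ⟨∑ τ, |X₀ τ|, fun τ X hX => ?_⟩
      rw [e1, e2]
      exact hX₀ τ X (((le_abs_self _).trans (Finset.single_le_sum (f := fun τ => |X₀ τ|)
        (fun i _ => abs_nonneg _) (Finset.mem_univ τ))).trans hX))
  exact hfinal.2.2.2 η hη

end Pool.Agent.Helper88.TH
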