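import Pool.Agent.Helper63.TH.Goals
import Pool.Agent.Helper56.PT.INT

/-!
# MP_705522_gt, thresholds: lower bound of `f0` at a point
-/

namespace Pool.Agent.Helper88.TH

open Set
open Pool.Agent.Helper53.PT
open Pool.Agent.Helper63.TH
open Pool.Agent.Helper56.PT

lemma lb_on (B : N.Base) (x k d s : ℕ)
    (hc : ∀ (α : Type) (f : ℕ → ℕ → ℕ → α), N.onCell x f = f k d s) :
    lb B x = chN (N.fld (N.tPL B) k) (N.fld (N.tPL B) (k + 1)) d s -
      (N.cpF (N.fld (N.tST B) k) s + 1099511635969) := by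
  unfold lb
  rw [hc]
  rfl

/-- `f0` is Lipschitz with constant `1/2` on `[0,∞)` -/
lemma f0_lip {θ : ℝ} (h0 : 0 < θ) (h1 : θ < 1 / 2) {x y : ℝ} (hx : 0 ≤ x) (hxy : x ≤ y) :
    |f0 θ y - f0 θ x| ≤ 1 / 2 * (y - x) := by
  have h := Convex.norm_image_sub_le_of_norm_hasDerivWithin_le (f := f0 θ)
    (f' := fun t => -(f1 θ t) / 2) (C := 1 / 2) (s := Ici (0 : ℝ)) (x := x) (y := y)
    (fun t _ => (hasDerivAt_f0 h0 h1 t).hasDerivWithinAt)
    (fun t ht => by
      have h2 := (aBD h0 h1 (show (0 : ℝ) ≤ t from ht)).2.2.2.1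
      rw [Real.norm_eq_abs, abs_div, abs_neg, abs_of_pos (by norm_num : (0 : ℝ) < 2)]
      linarith)
    (convex_Ici 0) hx (hx.trans hxy)
  rw [Real.norm_eq_abs, Real.norm_eq_abs, abs_of_nonneg (sub_nonneg.2 hxy)] at h
  exact h

theorem gLB : GLB := by
  intro hG A B θ bf tb ch x y hx hxy hyx
  obtain ⟨k, d, hk, hd, hxe, hidx, hc⟩ := hG.2.2.2.2.1 x hx
  have hθ0 : 0 < θ := by linarith [bf.th0]
  have hx0 : 0 ≤ aR x := by unfold aR; positivity
  constructor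
  · intro hlb
    rw [lb_on B x k d _ hc] at hlb ⊢
    obtain ⟨hl0, hl1⟩ := frac_mem d _ hd
    have h1 := (abs_le.1 (ch.c0 k hk _ hl0 hl1)).1
    rw [← aR_cell hG hk, ← hxe] at h1
    have h2 := tb.pl k (by omega)
    have h3 := tb.pl (k + 1) (by omega)
    have h4 := (vR_chN (N.fld (N.tPL B) k) (N.fld (N.tPL B) (k + 1)) d _ hd).1
    have h5 := mul_le_mul_of_nonneg_left h2 (sub_nonneg.2 hl1)
    have h6 := mul_le_mul_of_nonneg_left h3 hl0
    have h7 : vR (chN (N.fld (N.tPL B) k) (N.fld (N.tPL B) (k + 1)) d (N.shf k) -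
        (N.cpF (N.fld (N.tST B) k) (N.shf k) + 1099511635969)) +
        (vR (N.cpF (N.fld (N.tST B) k) (N.shf k)) + vR 1099511635969) =
        vR (chN (N.fld (N.tPL B) k) (N.fld (N.tPL B) (k + 1)) d (N.shf k)) := by
      rw [← vR_add, ← vR_add, Nat.sub_add_cancel (by omega)]
    have h8 := (abs_le.1 (f0_lip hθ0 bf.th1 hx0 hxy)).1
    have h9 : y - aR x ≤ 1 / 2 ^ 26 := by
      have e : aR (x + 1) = aR x + 1 / 2 ^ 26 := by unfold aR; push_cast; ring
      linarith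
    have h10 : vR 1099511635969 = 1 + 1 / 2 ^ 27 + 1 / 2 ^ 40 := by unfold vR; norm_num
    have h11 : (0 : ℝ) < 1 / 2 ^ 40 := by positivity
    have h12 : (1 : ℝ) / 2 * (1 / 2 ^ 26) = 1 / 2 ^ 27 := by norm_num
    linarith
  · rw [hidx]
    have e1 : xR k ≤ aR x := by
      unfold xR aR
      have : (N.xgN k : ℝ) ≤ x := by exact_mod_cast (by omega : N.xgN k ≤ x)
      gcongr
    have e2 : aR (x + 1) ≤ xR (k + 1) := by
      unfold xR aR
      have h : x + 1 ≤ N.xgN (k + 1) := by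
        rw [(hG.2.2.1 k hk).1]; omega
      have : ((x + 1 : ℕ) : ℝ) ≤ N.xgN (k + 1) := by exact_mod_cast h
      gcongr
    exact ch.b0 k hk y (e1.trans hxy) (hyx.le.trans e2)

end Pool.Agent.Helper88.TH
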