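import Pool.Agent.Helper42.TH.Goals1

/-!
# Project TH (MP_fc6b1e_nt), packet T_EXA, first part: counting the exceptional `b`
-/

set_option autoImplicit false

namespace Pool.Agent.Helper88.TH

open NumberField Polynomial Module IsDedekindDomain
open Pool.Agent.Helper51.RP Pool.Agent.Helper42.RD Pool.Agent.Helper42.PP Pool.Agent.Helper42.PP1
open Pool.Agent.Helper42.PB Pool.Agent.Helper42.PW Pool.Agent.Helper11.PP
open Pool.Agent.Helper38.WY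
open Pool.Agent.Helper51.SigLeo (IwasawaLog)
open Pool.Agent.Helper17.PP (Sys lg)
open Pool.Agent.Helper11.M3 (HypW)
open Pool.Agent.Helper11.LE (Cyc)
open Pool.Agent.Helper38.TH
open Pool.Agent.Helper42.TH
open Pool.Agent.Helper9.ND (fin_fam)

section abs

variable {p : ℕ} [Fact p.Prime] {B B₀ k U Λ C : Type} [Field k] [Fintype k] [Algebra (ZMod p) k]
    [AddCommGroup U] [Module k U] [AddCommGroup Λ] [Module k Λ]
    [AddCommGroup C]

open Classical in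
theorem badcount (h1 : T_EX1) (h2 : T_EX2) (S : Sys p B B₀ k U Λ C) (ψ : AddChar k ℂ)
    (g : ℝ → ℝ) (K : ℕ) (hW : HypW S ψ g K) (Vp Wp : B → Prop) (ρ κ K₀ : ℝ) (hρ : 0 ≤ ρ)
    (hV : ∀ T : ℕ, 1 ≤ T → ∃ n₀ : ℕ, ∀ n, n₀ ≤ n →
      ∑ q ∈ S.below (T * n) with Vp q ∧ n ≤ S.bl q, (1 : ℝ) / S.N q ≤ ρ * (Real.log T + 2))
    (hκ : 0 < κ) (hK₀ : 0 ≤ K₀)
    (hWp : ∀ m n : ℕ, 1 ≤ m → m ≤ n → κ * Real.log (n / m) - K₀ ≤
      ∑ q ∈ S.below n with Wp q ∧ m ≤ S.bl q, (1 : ℝ) / S.N q)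
    (F Ta Tb r Z : ℕ) (hF : 1 ≤ F) (hTa : 1 ≤ Ta) (hTb : 1 ≤ Tb) (η : ℝ) (hη : 0 < η) :
    ∃ X₀ : ℝ, ∀ X : ℝ, X₀ ≤ X →
    ({b : Finset B | (F * S.nm b < Z ∨
      (∃ q ∈ b, Vp q ∧ Nat.log 2 (F * S.nm b) ≤ Ta * S.bl q) ∨
      (b.filter fun q ↦ Wp q ∧ Nat.log 2 (F * S.nm b) ≤ Tb * S.bl q).card < r) ∧
      (S.nm b : ℝ) ≤ X}.ncard : ℝ) ≤
      (3 * K ^ 2 * (ρ * (Real.log (4 * Ta) + 2)) +
        3 * K * (Fintype.card k : ℝ) ^ r * Real.exp K₀ * (4 / (Tb : ℝ)) ^ (κ / 2) + η) *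
        (X * g X) := by
  obtain ⟨X₁, hX₁⟩ := h1 p B B₀ k U Λ C S ψ g K hW Vp ρ hρ hV F Ta hF hTa (η / 2) (by linarith)
  obtain ⟨X₂, hX₂⟩ := h2 p B B₀ k U Λ C S ψ g K hW Wp κ K₀ hκ hK₀ hWp F Tb r hF hTb
  set N : ℕ := {b : Finset B | True ∧ (S.nm b : ℝ) ≤ Z}.ncard with hN
  refine ⟨max (max X₁ X₂) (max 1 (2 * N / η)), fun X hX => ?_⟩
  have hXa : X₁ ≤ X := (le_max_left _ _).trans ((le_max_left _ _).trans hX)
  have hXb : X₂ ≤ X := (le_max_right _ _).trans ((le_max_left _ _).trans hX)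
  have hXc : 1 ≤ X := (le_max_left _ _).trans ((le_max_right _ _).trans hX)
  have hXd : 2 * N / η ≤ X := (le_max_right _ _).trans ((le_max_right _ _).trans hX)
  have e1 := hX₁ X hXa
  have e2 := hX₂ X hXb
  have hg1 := hW.g_one X
  have e3 : (N : ℝ) ≤ η / 2 * (X * g X) := by
    have h3 : (N : ℝ) ≤ η / 2 * X := by
      rw [div_le_iff₀ hη] at hXd
      linarith
    have h4 : η / 2 * X ≤ η / 2 * (X * g X) := by
      refine mul_le_mul_of_nonneg_left ?_ (by linarith)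
      nlinarith
    exact h3.trans h4
  set s1 : Set (Finset B) := {b | (S.nm b : ℝ) ≤ X ∧
      ∃ q ∈ b, Vp q ∧ Nat.log 2 (F * S.nm b) ≤ Ta * S.bl q} with hs1
  set s2 : Set (Finset B) := {b | (S.nm b : ℝ) ≤ X ∧
      (b.filter fun q ↦ Wp q ∧ Nat.log 2 (F * S.nm b) ≤ Tb * S.bl q).card < r} with hs2
  set s0 : Set (Finset B) := {b | True ∧ (S.nm b : ℝ) ≤ Z} with hs0
  have f0 : s0.Finite := fin_fam S Z (fun _ => True)
  have fX : {b : Finset B | True ∧ (S.nm b : ℝ) ≤ X}.Finite := fin_fam S X (fun _ => True)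
  have f1 : s1.Finite := fX.subset fun b hb => ⟨trivial, hb.1⟩
  have f2 : s2.Finite := fX.subset fun b hb => ⟨trivial, hb.1⟩
  have hsub : {b : Finset B | (F * S.nm b < Z ∨
      (∃ q ∈ b, Vp q ∧ Nat.log 2 (F * S.nm b) ≤ Ta * S.bl q) ∨
      (b.filter fun q ↦ Wp q ∧ Nat.log 2 (F * S.nm b) ≤ Tb * S.bl q).card < r) ∧
      (S.nm b : ℝ) ≤ X} ⊆ s0 ∪ (s1 ∪ s2) := by
    rintro b ⟨hb | hb | hb, hbX⟩
    · refine Or.inl ⟨trivial, ?_⟩
      have h5 : S.nm b ≤ Z := by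
        have : S.nm b ≤ F * S.nm b := Nat.le_mul_of_pos_left _ hF
        omega
      exact_mod_cast h5
    · exact Or.inr (Or.inl ⟨hbX, hb⟩)
    · exact Or.inr (Or.inr ⟨hbX, hb⟩)
  have hle := Set.ncard_le_ncard hsub (f0.union (f1.union f2))
  have hle2 := (Set.ncard_union_le s0 (s1 ∪ s2))
  have hle3 := (Set.ncard_union_le s1 s2)
  have hle4 : ({b : Finset B | (F * S.nm b < Z ∨
      (∃ q ∈ b, Vp q ∧ Nat.log 2 (F * S.nm b) ≤ Ta * S.bl q) ∨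
      (b.filter fun q ↦ Wp q ∧ Nat.log 2 (F * S.nm b) ≤ Tb * S.bl q).card < r) ∧
      (S.nm b : ℝ) ≤ X}.ncard : ℝ) ≤ (N : ℝ) + (s1.ncard + s2.ncard) := by
    exact_mod_cast hle.trans (hle2.trans (Nat.add_le_add_left hle3 _))
  refine hle4.trans ?_
  have e4 : (3 * (K : ℝ) ^ 2 * (ρ * (Real.log (4 * Ta) + 2)) +
        3 * K * (Fintype.card k : ℝ) ^ r * Real.exp K₀ * (4 / (Tb : ℝ)) ^ (κ / 2) + η) *
        (X * g X) = η / 2 * (X * g X) + ((3 * K ^ 2 * (ρ * (Real.log (4 * Ta) + 2)) + η / 2) *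
          (X * g X) + 3 * K * (Fintype.card k : ℝ) ^ r * Real.exp K₀ * (4 / (Tb : ℝ)) ^ (κ / 2) *
          (X * g X)) := by ring
  rw [e4]
  exact add_le_add e3 (add_le_add e1 e2)

end abs

section nf

variable {p : ℕ} [hp : Fact p.Prime] {K M K₁ M₁ : Type} [Field K]
    [NumberField K] [Field M] [NumberField M] [Field K₁] [NumberField K₁] [Field M₁]
    [NumberField M₁] [Algebra K M] [Algebra K K₁] [Algebra K M₁] [Algebra M M₁] [Algebra K₁ M₁]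
    {ε : K₁} {δ : M ≃ₐ[K] M} {P : (ZMod p)[X]} [Fact (Irreducible P)]
    (B : Base p K M K₁ M₁ ε δ P) {n : ℕ} (E : TauF n B) (V' : Set (HeightOneSpectrum (𝓞 K)))
    (s0 : HeightOneSpectrum (𝓞 K) → ZMod p) (aτ : K₁ˣ)

theorem mem_belowB (m : ℕ) (q : B.LP) :
    q ∈ (sysB B E V' s0 aτ).below m ↔ bv q.1.1 < m := by
  classical
  unfold Sys.below
  rw [Finset.mem_filter]
  constructor
  · exact fun h => h.2
  · intro h
    refine ⟨?_, h⟩
    rw [Set.Finite.mem_toFinset]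
    show Ideal.absNorm q.1.1.asIdeal ≤ 2 ^ m
    exact (Nat.lt_pow_of_log_lt (by norm_num) h).le

open Classical in
theorem labV {V : Set (HeightOneSpectrum (𝓞 K))} {ρ : ℝ} (hV : Tail V ρ) (T : ℕ) (hT : 1 ≤ T) :
    ∃ n₀ : ℕ, ∀ m, n₀ ≤ m →
      ∑ q ∈ (sysB B E V' s0 aτ).below (T * m) with
        q.1.1 ∈ V ∧ m ≤ (sysB B E V' s0 aτ).bl q, (1 : ℝ) / (sysB B E V' s0 aτ).N q ≤
      (((p : ℝ) - 1) * ρ) * (Real.log T + 2) := by
  obtain ⟨n₀, hn₀⟩ := hV T hT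
  refine ⟨n₀, fun m hm => ?_⟩
  set G := ((sysB B E V' s0 aτ).below (T * m)).filter (fun q =>
    q.1.1 ∈ V ∧ m ≤ (sysB B E V' s0 aτ).bl q) with hG
  set F : Finset (HeightOneSpectrum (𝓞 K)) := G.image (fun q => q.1.1) with hF
  have h1 : ∑ q ∈ G, (1 : ℝ) / (sysB B E V' s0 aτ).N q
      = ∑ x ∈ G.image Subtype.val, (1 : ℝ) / Ideal.absNorm x.1.asIdeal := by
    rw [Finset.sum_image (fun x _ y _ h => Subtype.ext h)]
    rfl
  have h2 : ∑ x ∈ G.image Subtype.val, (1 : ℝ) / Ideal.absNorm x.1.asIdeal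
      ≤ ∑ x ∈ F ×ˢ (Finset.univ : Finset (ZMod p)ˣ), (1 : ℝ) / Ideal.absNorm x.1.asIdeal := by
    refine Finset.sum_le_sum_of_subset_of_nonneg ?_ ?_
    · intro x hx
      obtain ⟨q, hq, rfl⟩ := Finset.mem_image.1 hx
      exact Finset.mem_product.2 ⟨Finset.mem_image.2 ⟨q, hq, rfl⟩, Finset.mem_univ _⟩
    · intro x _ _
      positivity
  have h3 : ∑ x ∈ F ×ˢ (Finset.univ : Finset (ZMod p)ˣ), (1 : ℝ) / Ideal.absNorm x.1.asIdeal
      = ((p : ℝ) - 1) * ∑ v ∈ F, (1 : ℝ) / Ideal.absNorm v.asIdeal := by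
    rw [Finset.sum_product, Finset.mul_sum]
    refine Finset.sum_congr rfl fun v _ => ?_
    show ∑ _y : (ZMod p)ˣ, (1 : ℝ) / Ideal.absNorm v.asIdeal = _
    rw [Finset.sum_const, Finset.card_univ, ZMod.card_units, nsmul_eq_mul,
      Nat.cast_sub hp.out.one_lt.le, Nat.cast_one]
  have h4 := hn₀ m hm F (by
    intro v hv
    obtain ⟨q, hq, rfl⟩ := Finset.mem_image.1 hv
    rw [hG, Finset.mem_filter, mem_belowB] at hq
    exact ⟨hq.2.1, hq.2.2, hq.1⟩)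
  have hp1 : (0 : ℝ) ≤ (p : ℝ) - 1 := by
    have : (1 : ℝ) ≤ p := by exact_mod_cast hp.out.one_lt.le
    linarith
  rw [h1]
  refine h2.trans ?_
  rw [h3, mul_assoc]
  exact mul_le_mul_of_nonneg_left h4 hp1

open Classical in
theorem labW {W : Set (HeightOneSpectrum (𝓞 K))} {κ K₀ : ℝ} (hW : MerL W κ K₀)
    (hsub : W ⊆ Spl K₁ ∅) (m l : ℕ) (hm : 1 ≤ m) (hml : m ≤ l) :
    κ * Real.log (l / m) - (K₀ + B.S.card) ≤
      ∑ q ∈ (sysB B E V' s0 aτ).below l with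
        q.1.1 ∈ W ∧ m ≤ (sysB B E V' s0 aτ).bl q, (1 : ℝ) / (sysB B E V' s0 aτ).N q := by
  obtain ⟨F, hF, hs⟩ := hW m l hm hml
  have hcal : ∀ v ∈ F.filter (fun v => v ∉ B.S), v ∈ B.calP := by
    intro v hv
    rw [Finset.mem_filter] at hv
    exact ⟨hv.2, (hsub (hF v hv.1).1).2⟩
  have h1 := Finset.sum_filter_add_sum_filter_not F (fun v => v ∉ B.S)
    (fun v => (1 : ℝ) / Ideal.absNorm v.asIdeal)
  have h2 : ∑ v ∈ F with ¬ v ∉ B.S, (1 : ℝ) / Ideal.absNorm v.asIdeal ≤ B.S.card := by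
    have h3 : ∑ v ∈ F with ¬ v ∉ B.S, (1 : ℝ) / Ideal.absNorm v.asIdeal
        ≤ ∑ v ∈ F with ¬ v ∉ B.S, (1 : ℝ) := by
      refine Finset.sum_le_sum fun v _ => ?_
      have hN : (1 : ℝ) ≤ Ideal.absNorm v.asIdeal := by
        have : Ideal.absNorm v.asIdeal ≠ 0 := by
          rw [Ne, Ideal.absNorm_eq_zero_iff]
          exact v.ne_bot
        exact_mod_cast Nat.one_le_iff_ne_zero.2 this
      exact div_le_one_of_le₀ hN (by positivity)
    refine h3.trans ?_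
    rw [Finset.sum_const, nsmul_eq_mul, mul_one]
    have h4 : (F.filter (fun v => ¬ v ∉ B.S)) ⊆ B.S := by
      intro v hv
      rw [Finset.mem_filter, not_not] at hv
      exact hv.2
    exact_mod_cast Finset.card_le_card h4
  set F' := F.filter (fun v => v ∉ B.S) with hF'
  let e : F' → B.LP := fun v => ⟨(v.1, 1), hcal v.1 v.2⟩
  have he : Function.Injective e := by
    intro v w h
    have : (e v).1.1 = (e w).1.1 := by rw [h]
    exact Subtype.ext this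
  have h5 : ∑ v ∈ F', (1 : ℝ) / Ideal.absNorm v.asIdeal
      = ∑ q ∈ F'.attach.image e, (1 : ℝ) / (sysB B E V' s0 aτ).N q := by
    rw [Finset.sum_image (fun x _ y _ h => he h), ← Finset.sum_attach F']
    rfl
  have h6 : ∑ q ∈ F'.attach.image e, (1 : ℝ) / (sysB B E V' s0 aτ).N q
      ≤ ∑ q ∈ (sysB B E V' s0 aτ).below l with
        q.1.1 ∈ W ∧ m ≤ (sysB B E V' s0 aτ).bl q, (1 : ℝ) / (sysB B E V' s0 aτ).N q := by
    refine Finset.sum_le_sum_of_subset_of_nonneg ?_ ?_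
    · intro q hq
      obtain ⟨v, -, rfl⟩ := Finset.mem_image.1 hq
      have hv := hF v.1 (Finset.mem_filter.1 v.2).1
      rw [Finset.mem_filter, mem_belowB]
      exact ⟨hv.2.2, hv.1, hv.2.1⟩
    · intro q _ _
      positivity
  linarith

end nf

end Pool.Agent.Helper88.TH
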